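import Pool.Agent.H26.DM.Coh

set_option autoImplicit false
set_option linter.unusedSectionVars false

/-!
# The dualizing character of `⟨x, y, z | x² y^(4n+1) z = z y⟩` modulo `2^(K+1)`
-/

namespace Pool.Agent.H26.DM

open Pool.Agent.K7.H77.Dem (Hm Zc Bd PD P2 kerS mem_kerS Ext extGroup exists_invariant_subgroup
  finite_quot isClosed_kerS IsDemushkin IsProP IsSelfSimilarOfIndex H1 H2 cup cupCocycle B2 Z2 d
  cup_ne_zero_iff)

/-- the affine group over `ℤ/2^(K+1)` -/
structure Aff (K : ℕ) where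
  fst : ZMod (2 ^ (K + 1))
  snd : (ZMod (2 ^ (K + 1)))ˣ

variable {K : ℕ}

@[ext] lemma Aff.ext' {a b : Aff K} (h : a.fst = b.fst) (h' : a.snd = b.snd) : a = b := by
  cases a; cases b; simp_all

instance : Mul (Aff K) := ⟨fun a b => ⟨a.fst + a.snd * b.fst, a.snd * b.snd⟩⟩
instance : One (Aff K) := ⟨⟨0, 1⟩⟩
instance : Inv (Aff K) :=
  ⟨fun a => ⟨-(((a.snd⁻¹ : (ZMod (2 ^ (K + 1)))ˣ) : ZMod (2 ^ (K + 1))) * a.fst), a.snd⁻¹⟩⟩

@[simp] lemma Aff.mul_fst (a b : Aff K) : (a * b).fst = a.fst + a.snd * b.fst := rfl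
@[simp] lemma Aff.mul_snd (a b : Aff K) : (a * b).snd = a.snd * b.snd := rfl
@[simp] lemma Aff.one_fst : (1 : Aff K).fst = 0 := rfl
@[simp] lemma Aff.one_snd : (1 : Aff K).snd = 1 := rfl
@[simp] lemma Aff.inv_fst (a : Aff K) :
    (a⁻¹).fst = -(((a.snd⁻¹ : (ZMod (2 ^ (K + 1)))ˣ) : ZMod (2 ^ (K + 1))) * a.fst) := rfl
@[simp] lemma Aff.inv_snd (a : Aff K) : (a⁻¹).snd = a.snd⁻¹ := rfl

instance : Group (Aff K) := Group.ofLeftAxioms
    (fun a b c => by
      apply Aff.ext'
      · simp only [Aff.mul_fst, Aff.mul_snd, Units.val_mul]; ring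
      · simp [mul_assoc])
    (fun a => by apply Aff.ext' <;> simp)
    (fun a => by apply Aff.ext' <;> simp)

instance : TopologicalSpace (Aff K) := ⊥

instance : DiscreteTopology (Aff K) := ⟨rfl⟩

lemma card_Aff : Nat.card (Aff K) = 2 ^ (K + 1 + K) := by
  let e : Aff K ≃ ZMod (2 ^ (K + 1)) × (ZMod (2 ^ (K + 1)))ˣ :=
    ⟨fun a => (a.fst, a.snd), fun a => ⟨a.1, a.2⟩, fun a => rfl, fun a => rfl⟩
  rw [Nat.card_congr e, Nat.card_prod, Nat.card_zmod, Nat.card_eq_fintype_card,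
    ZMod.card_units_eq_totient, Nat.totient_prime_pow_succ Nat.prime_two]
  norm_num
  ring

/-- the unit `4 n + 1` -/
def un (K n : ℕ) : (ZMod (2 ^ (K + 1)))ˣ :=
  ZMod.unitOfCoprime (4 * n + 1) (by
    apply Nat.Coprime.pow_right
    rw [Nat.coprime_comm, Nat.prime_two.coprime_iff_not_dvd]
    omega)

lemma un_val (n : ℕ) : ((un K n : (ZMod (2 ^ (K + 1)))ˣ) : ZMod (2 ^ (K + 1))) = 4 * n + 1 := by
  simp [un]

/-- the values of the dualizing character on the generators -/
def tv (K n : ℕ) : Fin 3 → (ZMod (2 ^ (K + 1)))ˣ := ![-1, 1, un K n]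

variable {n : ℕ}

lemma exists_aff (v : Fin 3 → ZMod (2 ^ (K + 1))) : ∃ ψ : GG n →* Aff K, Continuous ψ ∧
    ∀ j, ψ (gen j) = ⟨v j, tv K n j⟩ := by
  refine exists_hom_GG ⟨_, card_Aff⟩ (fun j => ⟨v j, tv K n j⟩) ?_
  have hpow : ∀ m : ℕ, (⟨v 1, 1⟩ : Aff K) ^ m = ⟨m * v 1, 1⟩ := by
    intro m
    induction m with
    | zero => rw [pow_zero]; apply Aff.ext' <;> simp
    | succ m ih =>
      rw [pow_succ, ih]
      apply Aff.ext'
      · simp; ring
      · simp
  have h1 : tv K n 1 = 1 := rfl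
  have h0 : tv K n 0 = -1 := rfl
  have h2 : tv K n 2 = un K n := rfl
  rw [h1, h0, h2, hpow]
  apply Aff.ext'
  · have h5 := un_val (K := K) n
    simp [h5]
    ring
  · simp

/-- the dualizing character modulo `2^(K+1)` -/
noncomputable def th (K n : ℕ) (g : GG n) : ZMod (2 ^ (K + 1)) :=
  ((Classical.choose (exists_aff (K := K) (n := n) 0) g).snd : (ZMod (2 ^ (K + 1)))ˣ)

lemma cont_snd : Continuous fun a : Aff K => ((a.snd : (ZMod (2 ^ (K + 1)))ˣ) :
    ZMod (2 ^ (K + 1))) := continuous_of_discreteTopology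

lemma cont_fst : Continuous fun a : Aff K => a.fst := continuous_of_discreteTopology

lemma ch_th : Ch (th K n) := by
  have h := Classical.choose_spec (exists_aff (K := K) (n := n) 0)
  refine ⟨cont_snd.comp h.1, ?_, fun g k => ?_⟩
  · simp [th]
  · simp [th]

lemma th_gen (j : Fin 3) : th K n (gen j) = ((tv K n j : (ZMod (2 ^ (K + 1)))ˣ) :
    ZMod (2 ^ (K + 1))) := by
  have h := (Classical.choose_spec (exists_aff (K := K) (n := n) 0)).2 j
  simp only [th, h]

/-- crossed homomorphisms with given values on the generators -/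
lemma exists_crossed (v : Fin 3 → ZMod (2 ^ (K + 1))) : ∃ c : GG n → ZMod (2 ^ (K + 1)),
    Continuous c ∧ (∀ g h, df (th K n) c g h = 0) ∧ ∀ j, c (gen j) = v j := by
  obtain ⟨ψ, hψ, h⟩ := exists_aff (K := K) (n := n) v
  have h0 := Classical.choose_spec (exists_aff (K := K) (n := n) 0)
  let _ : TopologicalSpace (ZMod (2 ^ (K + 1)))ˣ := ⊥
  have : DiscreteTopology (ZMod (2 ^ (K + 1)))ˣ := ⟨rfl⟩
  let pr : Aff K →* (ZMod (2 ^ (K + 1)))ˣ := ⟨⟨Aff.snd, rfl⟩, fun a b => rfl⟩
  have hpr : Continuous pr := continuous_of_discreteTopology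
  have hth : ∀ g, th K n g = ((ψ g).snd : (ZMod (2 ^ (K + 1)))ˣ) := by
    intro g
    have := hom_ext (ψ := pr.comp ψ)
      (ψ' := pr.comp (Classical.choose (exists_aff (K := K) (n := n) 0)))
      (hpr.comp hψ) (hpr.comp h0.1) (fun j => by
        change (ψ (gen j)).snd = (Classical.choose (exists_aff (K := K) (n := n) 0) (gen j)).snd
        rw [h, h0.2]) g
    exact congrArg Units.val this.symm
  refine ⟨fun g => (ψ g).fst, cont_fst.comp hψ, fun g k => ?_, fun j => by beta_reduce; rw [h]⟩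
  simp only [df, hth, map_mul, Aff.mul_fst]
  ring

lemma vg_th : VG (th K n) := by
  intro i hi c hc hd
  obtain ⟨c', hc', h1, h2⟩ := exists_crossed (K := K) (n := n) fun j => c (gen j)
  set s : ZMod (2 ^ (K + 1)) := 2 ^ i with hs
  refine ⟨c', hc', ?_, fun g h => by rw [h1, mul_zero]⟩
  have hmul : ∀ g h, 2 * (s * (c' (g * h) - c (g * h))) =
      2 * (s * (c' g - c g)) + th K n g * (2 * (s * (c' h - c h))) := by
    intro g h
    have e1 := h1 g h
    have e2 := hd g h
    simp only [df] at e1 e2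
    linear_combination -2 * s * e1 + e2
  let L : Subgroup (GG n) :=
    { carrier := {g | 2 * (s * (c' g - c g)) = 0}
      mul_mem' := by
        intro g h hg hh
        change 2 * (s * (c' (g * h) - c (g * h))) = 0
        rw [hmul, show 2 * (s * (c' g - c g)) = 0 from hg, show 2 * (s * (c' h - c h)) = 0 from hh]
        simp
      one_mem' := by
        change 2 * (s * (c' 1 - c 1)) = 0
        have := hmul 1 1
        rw [ch_th.one, mul_one] at this
        linear_combination -this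
      inv_mem' := by
        intro g hg
        change 2 * (s * (c' g⁻¹ - c g⁻¹)) = 0
        have e1 := hmul g⁻¹ g
        have e2 := hmul 1 1
        rw [ch_th.one, mul_one] at e2
        rw [inv_mul_cancel, show 2 * (s * (c' g - c g)) = 0 from hg] at e1
        linear_combination -e1 - e2 }
  have hcl : IsClosed (L : Set (GG n)) := by
    have h3 : Continuous fun g => ((c' g, c g) : ZMod (2 ^ (K + 1)) × ZMod (2 ^ (K + 1))) :=
      hc'.prodMk hc
    have h4 : Continuous fun g => 2 * (s * (c' g - c g)) :=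
      (continuous_of_discreteTopology (f := fun p : ZMod (2 ^ (K + 1)) × ZMod (2 ^ (K + 1)) =>
        2 * (s * (p.1 - p.2)))).comp h3
    exact (isClosed_discrete ({0} : Set (ZMod (2 ^ (K + 1))))).preimage h4
  have hK : L = ⊤ := eq_top_of_gen hcl fun j => by
    change 2 * (s * (c' (gen j) - c (gen j))) = 0
    rw [h2]
    simp
  intro g
  have : g ∈ L := by rw [hK]; trivial
  exact this

/-- `GG` is a pro-`2` group. -/
theorem isProP_GG : IsProP 2 (GG n) :=
  ⟨inferInstance, inferInstance, inferInstance, fun N _ hN => P2_GG N hN⟩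

/-- `GG` is a Demushkin group. -/
theorem isDemushkin_GG : IsDemushkin 2 (GG n) := by
  have hx : ∀ x : ZMod 2, x = 0 ∨ x = 1 := by decide
  refine ⟨isProP_GG, ⟨Set.range gen, Set.finite_range gen, closure_gen⟩, ?_, fun a ha => ?_,
    fun b hb => ?_⟩
  · rw [finrank_eq_one_iff']
    obtain ⟨a, ha, ha1⟩ := exists_hm (n := n) ![1, 0, 0]
    have hne : ∃ g, a g ≠ 0 := ⟨gen 0, by rw [ha1]; decide⟩
    obtain ⟨b, hb, hb1⟩ := (PD_GG n).nd a ha hne
    refine ⟨cup ⟨a, ha⟩ ⟨b, hb⟩, (cup_ne_zero_iff _ _).2 hb1, fun w => ?_⟩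
    obtain ⟨f, rfl⟩ := Submodule.Quotient.mk_surjective _ w
    let f' : GG n → GG n → ZMod 2 := fun g h => f.1 (g, h)
    have hf' : Zc f' := ⟨f.2.1, f.2.2⟩
    by_cases hb2 : Bd f'
    · refine ⟨0, ?_⟩
      rw [zero_smul, eq_comm, Submodule.Quotient.mk_eq_zero]
      change f.1 ∈ B2 2 (GG n)
      obtain ⟨e, he, h⟩ := hb2
      refine ⟨e, he, fun g k => ?_⟩
      have := h g k
      change f' g k = _
      rw [this]
      grind
    · refine ⟨1, ?_⟩
      rw [one_smul]
      unfold cup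
      rw [Submodule.Quotient.eq]
      change (cupCocycle ⟨a, ha⟩ ⟨b, hb⟩).1 - f.1 ∈ B2 2 (GG n)
      obtain ⟨e, he, h⟩ := (PD_GG n).one _ _ (Zc.cup ha hb) hf' hb1 hb2
      refine ⟨e, he, fun g k => ?_⟩
      have := h g k
      change a g * b k - f' g k = _
      beta_reduce at this
      grind
  · have hne : ∃ g, a.1 g ≠ 0 := by
      by_contra hcon
      push Not at hcon
      exact ha (Subtype.ext (funext hcon))
    obtain ⟨b, hb, hb1⟩ := (PD_GG n).nd a.1 a.2 hne
    exact ⟨⟨b, hb⟩, (cup_ne_zero_iff _ _).2 hb1⟩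
  · have hne : ∃ g, b.1 g ≠ 0 := by
      by_contra hcon
      push Not at hcon
      exact hb (Subtype.ext (funext hcon))
    obtain ⟨a, ha, ha1⟩ := (PD_GG n).nd b.1 b.2 hne
    exact ⟨⟨a, ha⟩, (cup_ne_zero_iff _ _).2 fun h => ha1 (h.comm ha b.2)⟩

/-- `GG` has rank three. -/
theorem d_GG : d 2 (GG n) = 3 := by
  have h : Nat.card (H1 2 (GG n)) = 2 ^ 3 := (PD_GG n).card
  have hfin : Finite (H1 2 (GG n)) := Nat.finite_of_card_ne_zero (by rw [h]; norm_num)
  have h1 := Module.natCard_eq_pow_finrank (K := ZMod 2) (V := H1 2 (GG n))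
  rw [h, Nat.card_zmod] at h1
  exact (Nat.pow_right_injective le_rfl h1).symm

end Pool.Agent.H26.DM
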