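import Pool.Agent.H26.DM.Grp

set_option autoImplicit false
set_option linter.unusedSectionVars false

/-!
# Cohomology of the pro-`2` group `⟨x, y, z | x² y^(4n+1) z = z y⟩`
-/

namespace Pool.Agent.H26.DM

open Pool.Agent.K7.H77.Dem (Hm Zc Bd PD P2 kerS mem_kerS Ext extGroup exists_invariant_subgroup
  finite_quot isClosed_kerS)

/-- the trace of a 2-cochain along the relation `x x y^m z = z y` -/
def tr {G : Type*} [Group G] (m : ℕ) (x y z : G) (f : G → G → ZMod 2) : ZMod 2 :=
  f x x + ∑ i ∈ Finset.range m, f (x * x * y ^ i) y + f (x * x * y ^ m) z + f z y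

variable {n : ℕ}

/-- A cocycle with trace zero is a coboundary. -/
lemma bd_of_tr {f : GG n → GG n → ZMod 2} (hf : Zc f)
    (h : tr (4 * n + 1) (gen 0) (gen 1) (gen 2) f = 0) : Bd f := by
  obtain ⟨W, hn, hW, hinv⟩ := exists_invariant_subgroup hf.1
  obtain ⟨k, hk⟩ := P2_GG W hW
  have hfin : Finite (GG n ⧸ W) := finite_quot hW
  -- the cocycle on the finite quotient
  let π : GG n →* GG n ⧸ W := QuotientGroup.mk' W
  let fb : GG n ⧸ W → GG n ⧸ W → ZMod 2 := fun q q' => f q.out q'.out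
  have hfb : ∀ g h, fb (π g) (π h) = f g h := by
    intro g h
    obtain ⟨w, hw⟩ := QuotientGroup.mk_out_eq_mul W g
    obtain ⟨w', hw'⟩ := QuotientGroup.mk_out_eq_mul W h
    have h1 := hinv g h w w.2 w' w'.2
    rw [← hw, ← hw'] at h1
    exact h1
  have hfbc : ∀ g h k, fb g h + fb (g * h) k = fb h k + fb g (h * k) := by
    intro g h k
    obtain ⟨g, rfl⟩ := QuotientGroup.mk'_surjective W g
    obtain ⟨h, rfl⟩ := QuotientGroup.mk'_surjective W h
    obtain ⟨k, rfl⟩ := QuotientGroup.mk'_surjective W k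
    have := hf.2 g h k
    rw [← hfb, ← hfb, ← hfb, ← hfb, map_mul, map_mul] at this
    exact this
  let _ : Group (Ext (GG n ⧸ W) fb) := extGroup hfbc
  let _ : TopologicalSpace (Ext (GG n ⧸ W) fb) := ⊥
  have : DiscreteTopology (Ext (GG n ⧸ W) fb) := ⟨rfl⟩
  let eq : Ext (GG n ⧸ W) fb ≃ (GG n ⧸ W) × ZMod 2 :=
    ⟨fun a => (a.fst, a.snd), fun a => ⟨a.1, a.2⟩, fun a => rfl, fun a => rfl⟩
  have hcard : ∃ j : ℕ, Nat.card (Ext (GG n ⧸ W) fb) = 2 ^ j := by
    refine ⟨k + 1, ?_⟩
    rw [Nat.card_congr eq, Nat.card_prod, Nat.card_zmod, pow_succ]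
    congr 1
  have hrel := gen_rel (n := n)
  let X : Fin 3 → Ext (GG n ⧸ W) fb := fun j => ⟨π (gen j), 0⟩
  have hmul : ∀ a b : Ext (GG n ⧸ W) fb, a * b = ⟨a.fst * b.fst, a.snd + b.snd + fb a.fst b.fst⟩ :=
    fun a b => rfl
  have hpow : ∀ m : ℕ, X 0 * X 0 * X 1 ^ m = ⟨π (gen 0 * gen 0 * gen 1 ^ m),
      f (gen 0) (gen 0) + ∑ i ∈ Finset.range m, f (gen 0 * gen 0 * gen 1 ^ i) (gen 1)⟩ := by
    intro m
    induction m with
    | zero =>
      rw [pow_zero, mul_one, pow_zero, mul_one, Finset.range_zero, Finset.sum_empty, add_zero, hmul]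
      simp only [X, hfb, map_mul, add_zero, zero_add]
    | succ m ih =>
      rw [pow_succ, ← mul_assoc, ih, hmul, Finset.sum_range_succ]
      simp only [X, hfb, ← map_mul, add_zero]
      apply Ext.ext'
      · simp only [pow_succ, mul_assoc]
      · simp only [add_assoc]
  obtain ⟨ψ, hψ, hψg⟩ := exists_hom_GG hcard X (by
    rw [hpow, hmul, hmul]
    simp only [X, hfb, ← map_mul, add_zero]
    apply Ext.ext'
    · rw [hrel]
    · simp only [tr] at h
      have h2 : (2 : ZMod 2) = 0 := by decide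
      linear_combination h - f (gen 2) (gen 1) * h2)
  -- the first component
  have hfst : ∀ g, (ψ g).fst = π g := by
    let _ : TopologicalSpace (GG n ⧸ W) := ⊥
    have : DiscreteTopology (GG n ⧸ W) := ⟨rfl⟩
    let pr : Ext (GG n ⧸ W) fb →* GG n ⧸ W := ⟨⟨Ext.fst, rfl⟩, fun a b => rfl⟩
    have hπ : Continuous π := by
      refine IsLocallyConstant.continuous ((IsLocallyConstant.iff_exists_open _).2 fun g => ?_)
      refine ⟨(fun x => g⁻¹ * x) ⁻¹' (W : Set (GG n)), hW.preimage (continuous_const_mul g⁻¹), by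
        simp [W.one_mem], fun x hx => ?_⟩
      exact (QuotientGroup.eq.2 hx).symm
    intro g
    exact hom_ext (ψ := pr.comp ψ) (ψ' := π)
      ((continuous_of_discreteTopology (f := pr)).comp hψ) hπ (fun j => by
        change (ψ (gen j)).fst = π (gen j)
        rw [hψg]) g
  refine ⟨fun g => (ψ g).snd, (continuous_of_discreteTopology (f := Ext.snd)).comp hψ,
    fun g h => ?_⟩
  have h1 : (ψ (g * h)).snd = (ψ g).snd + (ψ h).snd + fb (ψ g).fst (ψ h).fst := by
    rw [map_mul]; rfl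
  rw [hfst, hfst, hfb] at h1
  beta_reduce
  rw [h1]
  grind

lemma four_cast : (((4 * n + 1 : ℕ)) : ZMod 2) = 1 := by
  have : (4 : ZMod 2) = 0 := by decide
  push_cast
  rw [this]
  ring

/-- Coboundaries have trace zero. -/
lemma tr_of_bd {f : GG n → GG n → ZMod 2} (h : Bd f) :
    tr (4 * n + 1) (gen 0) (gen 1) (gen 2) f = 0 := by
  obtain ⟨e, -, he⟩ := h
  have key : ∀ m : ℕ, ∑ i ∈ Finset.range m, f (gen 0 * gen 0 * gen 1 ^ i) (gen 1) =
      e (gen 0 * gen 0) + e (gen 0 * gen 0 * gen 1 ^ m) + m * e (gen 1) := by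
    intro m
    induction m with
    | zero => simp; grind
    | succ m ih =>
      rw [Finset.sum_range_succ, ih, he, pow_succ, ← mul_assoc]
      push_cast
      grind
  simp only [tr]
  rw [key, four_cast, he, he, he, gen_rel]
  grind

lemma sum_four (n : ℕ) : ∑ i ∈ Finset.range (4 * n + 1), (i : ZMod 2) = 0 := by
  induction n with
  | zero => simp
  | succ n ih =>
    rw [show 4 * (n + 1) + 1 = 4 * n + 1 + 1 + 1 + 1 + 1 by ring]
    iterate 4 rw [Finset.sum_range_succ]
    rw [ih]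
    have h2 : (2 : ZMod 2) = 0 := by decide
    push_cast
    linear_combination (8 * n + 5) * h2

lemma tr_cup {a b : GG n → ZMod 2} (ha : Hm a) :
    tr (4 * n + 1) (gen 0) (gen 1) (gen 2) (fun g h => a g * b h) =
      a (gen 0) * b (gen 0) + a (gen 1) * b (gen 2) + a (gen 2) * b (gen 1) := by
  have key : ∀ m : ℕ, a (gen 0 * gen 0 * gen 1 ^ m) = m * a (gen 1) := by
    intro m
    induction m with
    | zero =>
      rw [pow_zero, mul_one, ha.2]
      grind
    | succ m ih =>
      rw [pow_succ, ← mul_assoc, ha.2, ih]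
      push_cast
      ring
  simp only [tr, key]
  rw [← Finset.sum_mul, ← Finset.sum_mul, sum_four, four_cast]
  ring

/-- Homomorphisms to `ℤ/2` with given values on the generators. -/
lemma exists_hm (v : Fin 3 → ZMod 2) : ∃ a : GG n → ZMod 2, Hm a ∧ ∀ j, a (gen j) = v j := by
  let _ : TopologicalSpace (Multiplicative (ZMod 2)) := ⊥
  have : DiscreteTopology (Multiplicative (ZMod 2)) := ⟨rfl⟩
  obtain ⟨ψ, hψ, h⟩ := exists_hom_GG (n := n) (E := Multiplicative (ZMod 2)) ⟨1, by simp⟩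
    (fun j => Multiplicative.ofAdd (v j)) (by
      have h4 := four_cast (n := n)
      simp only [← ofAdd_add, ← ofAdd_nsmul]
      congr 1
      rw [nsmul_eq_mul, h4]
      grind)
  refine ⟨fun g => (ψ g).toAdd,
    ⟨(continuous_of_discreteTopology (f := Multiplicative.toAdd)).comp hψ, fun g h => by simp⟩,
    fun j => by simp [h]⟩

lemma hm_ext {a b : GG n → ZMod 2} (ha : Hm a) (hb : Hm b) (h : ∀ j, a (gen j) = b (gen j)) :
    a = b := by
  have hK : kerS (ha.add hb) = ⊤ := eq_top_of_gen (isClosed_kerS (ha.add hb)) fun j => by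
    rw [mem_kerS, h]
    grind
  funext g
  have h1 : g ∈ kerS (ha.add hb) := by rw [hK]; trivial
  rw [mem_kerS] at h1
  grind

lemma tr_add (m : ℕ) {G : Type*} [Group G] (x y z : G) (f f' : G → G → ZMod 2) :
    tr m x y z (fun g h => f g h + f' g h) = tr m x y z f + tr m x y z f' := by
  simp only [tr, Finset.sum_add_distrib]
  ring

/-- `GG` satisfies Poincaré duality. -/
theorem PD_GG (n : ℕ) : PD (GG n) 3 := by
  have hx : ∀ x : ZMod 2, x = 0 ∨ x = 1 := by decide
  have htr : ∀ {f : GG n → GG n → ZMod 2}, Zc f → ¬ Bd f →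
      tr (4 * n + 1) (gen 0) (gen 1) (gen 2) f = 1 :=
    fun hf h => (hx _).resolve_left fun h0 => h (bd_of_tr hf h0)
  refine ⟨?_, fun f f' hf hf' h1 h2 => ?_, fun a ha h0 => ?_⟩
  · let e : {a : GG n → ZMod 2 // Hm a} ≃ (Fin 3 → ZMod 2) :=
      Equiv.ofBijective (fun a j => a.1 (gen j)) ⟨fun a b hab =>
        Subtype.ext (hm_ext a.2 b.2 fun j => congrFun hab j), fun v => by
          obtain ⟨a, ha, h⟩ := exists_hm (n := n) v
          exact ⟨⟨a, ha⟩, funext h⟩⟩
    rw [Nat.card_congr e]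
    simp
  · refine bd_of_tr (hf.add hf') ?_
    rw [tr_add, htr hf h1, htr hf' h2]
    decide
  · have hne : ∃ j, a (gen j) ≠ 0 := by
      by_contra hcon
      push Not at hcon
      obtain ⟨g, hg⟩ := h0
      have := hm_ext ha Hm.zero hcon
      exact hg (congrFun this g)
    have key : ∀ b : GG n → ZMod 2, Hm b →
        a (gen 0) * b (gen 0) + a (gen 1) * b (gen 2) + a (gen 2) * b (gen 1) ≠ 0 →
        ∃ b, Hm b ∧ ¬ Bd (fun g h => a g * b h) := by
      intro b hb h1
      refine ⟨b, hb, fun h2 => h1 ?_⟩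
      rw [← tr_cup ha]
      exact tr_of_bd h2
    obtain ⟨j, hj⟩ := hne
    have hj1 := (hx _).resolve_left hj
    have hj3 : ∀ j : Fin 3, j = 0 ∨ j = 1 ∨ j = 2 := by decide
    rcases hj3 j with rfl | rfl | rfl
    · obtain ⟨b, hb, h1⟩ := exists_hm (n := n) ![1, 0, 0]
      refine key b hb ?_
      have e0 := h1 0
      have e1 := h1 1
      have e2 := h1 2
      simp at e0 e1 e2
      rw [e0, e1, e2, hj1]
      simp
    · obtain ⟨b, hb, h1⟩ := exists_hm (n := n) ![0, 0, 1]
      refine key b hb ?_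
      have e0 := h1 0
      have e1 := h1 1
      have e2 := h1 2
      simp at e0 e1 e2
      rw [e0, e1, e2, hj1]
      simp
    · obtain ⟨b, hb, h1⟩ := exists_hm (n := n) ![0, 1, 0]
      refine key b hb ?_
      have e0 := h1 0
      have e1 := h1 1
      have e2 := h1 2
      simp at e0 e1 e2
      rw [e0, e1, e2, hj1]
      simp

end Pool.Agent.H26.DM
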