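import Pool.Agent.H26.DM.Wu
import Pool.Agent.H26.DM.Char

set_option autoImplicit false
set_option linter.unusedSectionVars false

/-!
# Demushkin pro-`2` groups of rank three
-/

namespace Pool.Agent.H26.DM

open Pool.Agent.K7.H77.Dem (Hm Zc Bd PD P2 kerS mem_kerS H1 H2 IsDemushkin IsProP d cup cupCocycle
  B2 Z2 cup_ne_zero_iff IsSelfSimilarOfIndex exists_normal_le)

section Dem

variable {G : Type*} [Group G] [TopologicalSpace G] [IsTopologicalGroup G]

lemma IsDemushkin.p2 (hD : IsDemushkin 2 G) : P2 G := by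
  have := hD.proP.compact
  have := hD.proP.t2
  have := hD.proP.totallyDisconnected
  intro V hV
  obtain ⟨W, hn, hW, hWV⟩ := exists_normal_le hV
  obtain ⟨k, hk⟩ := hD.proP.index W hn hW
  have h1 : V.index ∣ 2 ^ k := hk ▸ Subgroup.index_dvd_of_le hWV
  obtain ⟨m, _, hm⟩ := (Nat.dvd_prime_pow Nat.prime_two).1 h1
  exact ⟨m, hm⟩

lemma mk_eq_zero_iff {f : G → G → ZMod 2} (hf : Zc f) :
    (Submodule.Quotient.mk (⟨fun x => f x.1 x.2, hf.1, hf.2⟩ : Z2 2 G) : H2 2 G) = 0 ↔ Bd f := by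
  rw [Submodule.Quotient.mk_eq_zero]
  change (fun x : G × G => f x.1 x.2) ∈ B2 2 G ↔ _
  constructor
  · rintro ⟨e, he, h⟩
    refine ⟨e, he, fun g k => ?_⟩
    have := h g k
    simp only at this
    rw [this]
    grind
  · rintro ⟨e, he, h⟩
    refine ⟨e, he, fun g k => ?_⟩
    have := h g k
    simp only
    rw [this]
    grind

lemma IsDemushkin.pd (hD : IsDemushkin 2 G) {n : ℕ} (hn : n ≠ 0) (hd : d 2 G = n) : PD G n := by
  refine ⟨?_, fun f f' hf hf' h1 h2 => ?_, fun a ha h0 => ?_⟩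
  · have hfd : Module.Finite (ZMod 2) (H1 2 G) := by
      apply Module.finite_of_finrank_pos
      have : Module.finrank (ZMod 2) (H1 2 G) = n := hd
      omega
    have h1 := Module.natCard_eq_pow_finrank (K := ZMod 2) (V := H1 2 G)
    have h2 : Module.finrank (ZMod 2) (H1 2 G) = n := hd
    rw [h2, Nat.card_zmod] at h1
    exact h1
  · have h3 := hD.one
    rw [finrank_eq_one_iff'] at h3
    obtain ⟨v, hv, hv2⟩ := h3
    have hx : ∀ x : ZMod 2, x = 0 ∨ x = 1 := by decide
    have key : ∀ w : H2 2 G, w ≠ 0 → w = v := by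
      intro w hw
      obtain ⟨c, hc⟩ := hv2 w
      rcases hx c with rfl | rfl
      · rw [zero_smul] at hc
        exact absurd hc.symm hw
      · rw [one_smul] at hc
        exact hc.symm
    have e1 := key _ (fun h => h1 ((mk_eq_zero_iff hf).1 h))
    have e2 := key _ (fun h => h2 ((mk_eq_zero_iff hf').1 h))
    rw [← mk_eq_zero_iff (hf.add hf')]
    have e3 : (⟨fun x => f x.1 x.2 + f' x.1 x.2, (hf.add hf').1, (hf.add hf').2⟩ : Z2 2 G) =
        ⟨fun x => f x.1 x.2, hf.1, hf.2⟩ + ⟨fun x => f' x.1 x.2, hf'.1, hf'.2⟩ := rfl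
    rw [e3, Submodule.Quotient.mk_add, e1, e2, ← two_smul (ZMod 2),
      show (2 : ZMod 2) = 0 by decide, zero_smul]
  · obtain ⟨b, hb⟩ := hD.left ⟨a, ha⟩ (fun h => by
      obtain ⟨g, hg⟩ := h0
      exact hg (congrFun (congrArg Subtype.val h) g))
    exact ⟨b.1, b.2, (cup_ne_zero_iff _ _).1 hb⟩

variable {K : ℕ}

/-- **Demushkin groups of rank three.** Let `G` be a Demushkin pro-`2` group with `d(G) = 3` and let
`θ` be a dualizing character of `G` modulo `2^(K+1)`. If `θ` takes a value different from `±1`, then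
`G` is not self-similar of index two. -/
theorem not_selfSimilar (hD : IsDemushkin 2 G) (hd : d 2 G = 3)
    {θ : G → ZMod (2 ^ (K + 1))} (hθ : Ch θ) (hv : VG θ) (hne : ∃ g, θ g ≠ 1 ∧ θ g ≠ -1) :
    ¬ IsSelfSimilarOfIndex 2 G := by
  have := hD.proP.compact
  have := hD.proP.t2
  have := hD.proP.totallyDisconnected
  have h2 := IsDemushkin.p2 hD
  have h := IsDemushkin.pd hD (by norm_num) hd
  classical
  -- the first level at which `θ` is not `±1`
  let P : ℕ → Prop := fun j => ∃ g, 2 ^ (K - j) * (θ g - 1) ≠ 0 ∧ 2 ^ (K - j) * (θ g + 1) ≠ 0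
  have hP : ∃ j, P j := by
    obtain ⟨g, h1, h3⟩ := hne
    refine ⟨K, g, ?_, ?_⟩
    · rw [Nat.sub_self, pow_zero, one_mul]
      exact fun h4 => h1 (sub_eq_zero.1 h4)
    · rw [Nat.sub_self, pow_zero, one_mul]
      exact fun h4 => h3 (eq_neg_of_add_eq_zero_left h4)
  have hPj := Nat.find_spec hP
  have hmin := fun m (hm : m < Nat.find hP) => Nat.find_min hP hm
  have hjK : Nat.find hP ≤ K := Nat.find_min' hP (by
    obtain ⟨g, h1, h3⟩ := hne
    refine ⟨g, ?_, ?_⟩
    · rw [Nat.sub_self, pow_zero, one_mul]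
      exact fun h4 => h1 (sub_eq_zero.1 h4)
    · rw [Nat.sub_self, pow_zero, one_mul]
      exact fun h4 => h3 (eq_neg_of_add_eq_zero_left h4))
  generalize Nat.find hP = j at hPj hmin hjK
  have hodd : ∀ g, ∃ z, θ g = 1 + 2 * z := fun g => odd_of_unit (hθ.inv g)
  have h2K := two_mul_half (K := K)
  have hj2 : 2 ≤ j := by
    obtain ⟨g, h1, h3⟩ := hPj
    obtain ⟨z, hz⟩ := hodd g
    by_contra hj
    have : j = 0 ∨ j = 1 := by omega
    rcases this with rfl | rfl
    · rw [hz, Nat.sub_zero] at h1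
      exact h1 (by linear_combination z * h2K)
    · have e1 : (2 : ZMod (2 ^ (K + 1))) ^ (K - 1) * 2 = 2 ^ K := by
        rw [← pow_succ]; congr 1; omega
      rcases even_or_odd z with ⟨y, hy⟩ | ⟨y, hy⟩
      · rw [hz, hy] at h1
        exact h1 (by linear_combination 2 * y * e1 + y * h2K)
      · rw [hz, hy] at h3
        exact h3 (by linear_combination (2 * y + 2) * e1 + (y + 1) * h2K)
  have hlow : ∀ g, 2 ^ (1 + (K - j)) * (θ g - 1) = 0 ∨ 2 ^ (1 + (K - j)) * (θ g + 1) = 0 := by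
    intro g
    have h3 := hmin (j - 1) (by omega)
    by_contra hcon
    push Not at hcon
    apply h3
    refine ⟨g, ?_, ?_⟩
    · have e : K - (j - 1) = 1 + (K - j) := by omega
      rw [e]; exact hcon.1
    · have e : K - (j - 1) = 1 + (K - j) := by omega
      rw [e]; exact hcon.2
  -- the reduction
  have hθ' := hθ.red hjK
  have hv' := hv.red hjK
  have hV : ∀ g, 2 * (red hjK (θ g) - 1) = 0 ∨ 2 * (red hjK (θ g) + 1) = 0 := by
    intro g
    rcases hlow g with h3 | h3
    · left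
      rw [← red_pow hjK (by omega), pow_one, map_sub, map_one] at h3
      exact h3
    · right
      rw [← red_pow hjK (by omega), pow_one, map_add, map_one] at h3
      exact h3
  have hne' : ∃ g, red hjK (θ g) ≠ 1 ∧ red hjK (θ g) ≠ -1 := by
    obtain ⟨g, h1, h3⟩ := hPj
    refine ⟨g, fun h4 => h1 ?_, fun h4 => h3 ?_⟩
    · rw [← red_eq_zero hjK, map_sub, map_one, h4, sub_self]
    · rw [← red_eq_zero hjK, map_add, map_one, h4, neg_add_cancel]
  exact not_ss h2 h hθ' hv' q1 q2 (hm_q1 hθ' hj2 hV) (hm_q2 hθ' hj2 hV)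
    (indep h hθ' hv' hj2 hV hne')

end Dem

section GG

variable {K n : ℕ}

lemma th_two : th K n (gen 2) = 4 * n + 1 := by
  rw [th_gen]
  exact un_val n

lemma th_one : th K n (gen 1) = 1 := by
  rw [th_gen]
  rfl

lemma th_zero : th K n (gen 0) = -1 := by
  rw [th_gen]
  change (((-1 : (ZMod (2 ^ (K + 1)))ˣ)) : ZMod (2 ^ (K + 1))) = -1
  simp

/-- the value at the third generator is not `±1` modulo `2^(K+1)`, unless `2^(K+1)` divides `4n` -/
lemma th_two_ne (hK : 2 ≤ K) (hn : ¬ 2 ^ (K + 1) ∣ 4 * n) :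
    th K n (gen 2) ≠ 1 ∧ th K n (gen 2) ≠ -1 := by
  rw [th_two]
  constructor
  · intro h
    apply hn
    rw [← ZMod.natCast_eq_zero_iff]
    push_cast
    linear_combination h
  · intro h
    have h1 : ((4 * n + 2 : ℕ) : ZMod (2 ^ (K + 1))) = 0 := by
      push_cast
      linear_combination h
    rw [ZMod.natCast_eq_zero_iff] at h1
    have h2 : 2 ^ 2 ∣ 2 ^ (K + 1) := pow_dvd_pow 2 (by omega)
    have h3 : 2 ^ 2 ∣ 4 * n + 2 := h2.trans h1
    omega

lemma exists_ne (hn : 1 ≤ n) : ∃ g, th (4 * n) n g ≠ 1 ∧ th (4 * n) n g ≠ -1 := by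
  refine ⟨gen 2, th_two_ne (by omega) fun h => ?_⟩
  have h1 := Nat.le_of_dvd (by omega) h
  have h2 : 4 * n + 1 < 2 ^ (4 * n + 1) := Nat.lt_two_pow_self
  omega

/-- **`GG n` is not self-similar of index two** for `n ≥ 1`. -/
theorem not_selfSimilar_GG (hn : 1 ≤ n) : ¬ IsSelfSimilarOfIndex 2 (GG n) :=
  not_selfSimilar isDemushkin_GG d_GG ch_th vg_th (exists_ne hn)

/-- the values are `±1` if `2^(K+1)` divides `4n` -/
lemma th_val (hn : 2 ^ (K + 1) ∣ 4 * n) (g : GG n) : th K n g = 1 ∨ th K n g = -1 := by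
  let L : Subgroup (GG n) :=
    { carrier := {g | th K n g = 1 ∨ th K n g = -1}
      mul_mem' := by
        rintro a b (ha | ha) (hb | hb)
        · left; rw [ch_th.mul, ha, hb]; ring
        · right; rw [ch_th.mul, ha, hb]; ring
        · right; rw [ch_th.mul, ha, hb]; ring
        · left; rw [ch_th.mul, ha, hb]; ring
      one_mem' := Or.inl ch_th.one
      inv_mem' := by
        intro a ha
        have h := ch_th.inv (K := K) (θ := th K n) a
        rcases ha with ha | ha
        · left; rw [ha] at h; linear_combination h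
        · right; rw [ha] at h; linear_combination -h }
  have hcl : IsClosed (L : Set (GG n)) :=
    (isClosed_discrete ({x | x = 1 ∨ x = -1} : Set (ZMod (2 ^ (K + 1))))).preimage ch_th.cont
  have h0 : ((4 * n : ℕ) : ZMod (2 ^ (K + 1))) = 0 := (ZMod.natCast_eq_zero_iff _ _).2 hn
  have hL : L = ⊤ := eq_top_of_gen hcl fun j => by
    have hj3 : ∀ j : Fin 3, j = 0 ∨ j = 1 ∨ j = 2 := by decide
    change th K n (gen j) = 1 ∨ th K n (gen j) = -1
    rcases hj3 j with rfl | rfl | rfl
    · exact Or.inr th_zero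
    · exact Or.inl th_one
    · left
      rw [th_two]
      push_cast at h0
      linear_combination h0
  have : g ∈ L := by rw [hL]; trivial
  exact this

/-- `GG n` and `GG m` are not isomorphic if some power of `2` divides `4m` but not `4n`. -/
lemma not_iso {m : ℕ} (hK : 2 ≤ K) (hn : ¬ 2 ^ (K + 1) ∣ 4 * n) (hm : 2 ^ (K + 1) ∣ 4 * m)
    (e : GG n ≃* GG m) (he : Continuous e) (he' : Continuous e.symm) : False := by
  have h1 : (fun g => th K m (e g)) = th K n :=
    VG.unique (PD_GG n) (ch_th.comp e.toMonoidHom he) ch_th (vg_th.congr e he he') vg_th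
  obtain ⟨h2, h3⟩ := th_two_ne hK hn
  rw [← h1] at h2 h3
  rcases th_val hm (e (gen 2)) with h4 | h4
  · exact h2 h4
  · exact h3 h4

lemma not_iso_of_lt {m : ℕ} (hn : 1 ≤ n) (h : padicValNat 2 n < padicValNat 2 m)
    (e : GG n ≃* GG m) (he : Continuous e) (he' : Continuous e.symm) : False := by
  refine not_iso (K := padicValNat 2 n + 2) (by omega) ?_ ?_ e he he'
  · intro h1
    have h2 : 2 ^ (padicValNat 2 n + 2 + 1) = 4 * 2 ^ (padicValNat 2 n + 1) := by ring
    rw [h2] at h1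
    have h3 : 2 ^ (padicValNat 2 n + 1) ∣ n := Nat.dvd_of_mul_dvd_mul_left (by norm_num) h1
    exact pow_succ_padicValNat_not_dvd (by omega) h3
  · have h2 : 2 ^ (padicValNat 2 n + 2 + 1) = 4 * 2 ^ (padicValNat 2 n + 1) := by ring
    rw [h2]
    exact Nat.mul_dvd_mul_left 4 ((pow_dvd_pow 2 h).trans pow_padicValNat_dvd)

/-- The groups `GG n` with different `2`-adic valuations of `n` are not isomorphic. -/
theorem isEmpty_iso {m : ℕ} (hn : 1 ≤ n) (hm : 1 ≤ m) (h : padicValNat 2 n ≠ padicValNat 2 m) :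
    IsEmpty (GG n ≃ₜ* GG m) := by
  refine ⟨fun e => ?_⟩
  rcases lt_or_gt_of_ne h with h1 | h1
  · exact not_iso_of_lt hn h1 e.toMulEquiv e.continuous_toFun e.continuous_invFun
  · exact not_iso_of_lt hm h1 e.toMulEquiv.symm e.continuous_invFun e.continuous_toFun

end GG

end Pool.Agent.H26.DM
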