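import Pool.Agent.H26.DM.Th

set_option autoImplicit false
set_option linter.unusedSectionVars false

/-!
# No simple virtual endomorphisms
-/

namespace Pool.Agent.H26.DM

open Pool.Agent.K7.H77.Dem (Hm Zc Bd PD P2 kerS rep uu cor1 cor2 mem_kerS core_of_not_injective
  range_of_injective isClosed_kerS isOpen_kerS normal_kerS eq_of_le not_selfSimilar
  IsSelfSimilarOfIndex)

section Main

variable {K : ℕ} {G : Type*} [Group G] [TopologicalSpace G] [IsTopologicalGroup G]
variable [CompactSpace G] [TotallyDisconnectedSpace G] [T2Space G]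

lemma Hm.comp_fun {q : ZMod (2 ^ (K + 1)) → ZMod 2} {θ : G → ZMod (2 ^ (K + 1))}
    (hθ : Ch θ) (hq : ∀ g h, q (θ (g * h)) = q (θ g) + q (θ h)) : Hm (fun g => q (θ g)) :=
  ⟨(continuous_of_discreteTopology (f := q)).comp hθ.cont, hq⟩

/-- **No simple virtual endomorphisms.** Let `G` be a pro-`2` Demushkin group of rank three with a
dualizing character `θ` modulo `2^(K+1)`, two of whose quadratic characters are independent. Then for
every homomorphism `φ` from a subgroup of index two to `G` some nontrivial normal subgroup of `G` is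
invariant under `φ`. -/
theorem exists_invariant (h2 : P2 G) (h : PD G 3) {θ : G → ZMod (2 ^ (K + 1))} (hθ : Ch θ)
    (hv : VG θ) (q1 q2 : ZMod (2 ^ (K + 1)) → ZMod 2)
    (hq1 : Hm fun g => q1 (θ g)) (hq2 : Hm fun g => q2 (θ g))
    (hind : ∀ γ δ : ZMod 2, (∀ g, γ * q1 (θ g) + δ * q2 (θ g) = 0) → γ = 0 ∧ δ = 0)
    {a : G → ZMod 2} (ha : Hm a) (h0 : ∃ g, a g ≠ 0) (φ : kerS ha →* G) (hφ : Continuous φ) :
    ∃ N : Subgroup G, N.Normal ∧ N ≠ ⊥ ∧ ∀ n ∈ N, ∃ hn : n ∈ kerS ha, φ ⟨n, hn⟩ ∈ N := by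
  have hx : ∀ x : ZMod 2, x = 0 ∨ x = 1 := by decide
  obtain ⟨t, ht'⟩ := h0
  have ht : a t = 1 := (hx _).resolve_left ht'
  by_cases hinj : Function.Injective φ
  swap
  · obtain ⟨N, hN, hne, hN2⟩ := core_of_not_injective ha φ h2 h hφ ht hinj
    refine ⟨N, hN, hne, fun n hn => ?_⟩
    obtain ⟨h3, h4⟩ := hN2 n hn
    exact ⟨h3, h4 ▸ N.one_mem⟩
  obtain ⟨b, hb, hb0, hrange⟩ := range_of_injective ha φ h2 h hφ ht hinj
  obtain ⟨t', ht''⟩ := hb0
  have htb : b t' = 1 := (hx _).resolve_left ht''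
  have hφb : ∀ x, b (φ x) = 0 := fun x => (hrange _).1 ⟨x, rfl⟩
  -- `θ ∘ φ = θ`
  have hcomp : CompactSpace (kerS ha) := isCompact_iff_compactSpace.1 (isClosed_kerS ha).isCompact
  have hPD : PD (kerS ha) 4 := PD.step (n := 2) h ha ⟨t, ht'⟩
  let φ' : kerS ha →* kerS hb := φ.codRestrict (kerS hb) hφb
  have hφ' : Continuous φ' := Continuous.subtype_mk hφ _
  have hbij : Function.Bijective φ' := by
    constructor
    · intro x y hxy
      exact hinj (congrArg Subtype.val hxy)
    · intro y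
      obtain ⟨x, hx⟩ := (hrange y).2 y.2
      exact ⟨x, Subtype.ext hx⟩
  let e : kerS ha ≃* kerS hb := MulEquiv.ofBijective φ' hbij
  have he : Continuous e := hφ'
  have he' : Continuous e.symm :=
    Continuous.continuous_symm_of_equiv_compact_to_t2 (f := e.toEquiv) he
  have hθφ : ∀ x : kerS ha, θ (φ x) = θ x := by
    have hv1 := VG.res ha ht h hθ hv
    have hv2 : VG (fun x : kerS ha => θ (e x)) := (VG.res hb htb h hθ hv).congr e he he'
    have h1 : Ch (fun x : kerS ha => θ x) := hθ.comp (kerS ha).subtype continuous_subtype_val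
    have h2 : Ch (fun x : kerS ha => θ (e x)) := hθ.comp φ hφ
    exact fun x => congrFun (VG.unique hPD h2 h1 hv2 hv1) x
  by_cases hab : a = b
  · subst hab
    refine ⟨kerS ha, normal_kerS ha, h.open_ne_bot h2 (isOpen_kerS ha), fun n hn => ⟨hn, ?_⟩⟩
    rw [mem_kerS]
    exact hφb _
  -- a linear relation
  obtain ⟨α, β, γ, δ, hrel, hne⟩ : ∃ α β γ δ : ZMod 2,
      (∀ g, α * a g + β * b g + γ * q1 (θ g) + δ * q2 (θ g) = 0) ∧
        ¬ (α = 0 ∧ β = 0 ∧ γ = 0 ∧ δ = 0) := by
    by_contra hcon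
    push Not at hcon
    let F : ZMod 2 × ZMod 2 × ZMod 2 × ZMod 2 → {x : G → ZMod 2 // Hm x} := fun v =>
      ⟨fun g => v.1 * a g + v.2.1 * b g + v.2.2.1 * q1 (θ g) + v.2.2.2 * q2 (θ g), by
        have hs : ∀ (r : ZMod 2) {x : G → ZMod 2}, Hm x → Hm (fun g => r * x g) := by
          intro r x hx
          exact ⟨(continuous_of_discreteTopology (f := fun y : ZMod 2 => r * y)).comp hx.1,
            fun g h => by beta_reduce; rw [hx.2]; ring⟩
        exact (((hs v.1 ha).add (hs v.2.1 hb)).add (hs v.2.2.1 hq1)).add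
          (hs v.2.2.2 hq2)⟩
    have hF : Function.Injective F := by
      intro v w hvw
      have h3 : ∀ g, (v.1 - w.1) * a g + (v.2.1 - w.2.1) * b g + (v.2.2.1 - w.2.2.1) * q1 (θ g) +
          (v.2.2.2 - w.2.2.2) * q2 (θ g) = 0 := by
        intro g
        have := congrFun (congrArg Subtype.val hvw) g
        simp only [F] at this
        linear_combination this
      obtain ⟨h4, h5, h6, h7⟩ := hcon _ _ _ _ h3
      rw [sub_eq_zero] at h4 h5 h6 h7
      exact Prod.ext h4 (Prod.ext h5 (Prod.ext h6 h7))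
    have hfin : Finite {x : G → ZMod 2 // Hm x} := by
      have h3 := h.card
      exact Nat.finite_of_card_ne_zero (by rw [h3]; norm_num)
    have h3 := Nat.card_le_card_of_injective _ hF
    rw [h.card] at h3
    simp only [Nat.card_prod, Nat.card_zmod] at h3
    omega
  rcases hx α with hα | hα <;> rcases hx β with hβ | hβ
  · -- `α = β = 0`
    exfalso
    subst hα hβ
    obtain ⟨h3, h4⟩ := hind γ δ fun g => by
      have := hrel g
      linear_combination this
    exact hne ⟨rfl, rfl, h3, h4⟩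
  · -- `b` factors through `θ`
    exfalso
    subst hα hβ
    refine hab (eq_of_le hb ha ⟨t', ht''⟩ fun g hg => ?_).symm
    have e1 := hrel g
    have e2 := hrel (φ ⟨g, hg⟩)
    rw [hθφ, hφb] at e2
    grind
  · -- `a` factors through `θ`
    exfalso
    subst hα hβ
    refine hab (eq_of_le ha hb ⟨t, ht'⟩ fun g hg => ?_)
    obtain ⟨x, hx⟩ := (hrange g).2 hg
    have e1 := hrel g
    have e2 := hrel x
    have e3 : a (x : G) = 0 := x.2
    rw [← hx] at e1
    rw [hθφ] at e1
    rw [← hx]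
    grind
  · -- `a + b` factors through `θ`
    subst hα hβ
    have n1 := normal_kerS ha
    have n2 := normal_kerS hb
    refine ⟨kerS ha ⊓ kerS hb, inferInstance, h.open_ne_bot h2 ?_, fun n hn => ?_⟩
    · rw [Subgroup.coe_inf]
      exact (isOpen_kerS ha).inter (isOpen_kerS hb)
    · obtain ⟨hn1, hn2⟩ := Subgroup.mem_inf.1 hn
      refine ⟨hn1, Subgroup.mem_inf.2 ⟨?_, hφb _⟩⟩
      have e1 := hrel n
      have e2 := hrel (φ ⟨n, hn1⟩)
      have e3 : a n = 0 := hn1
      have e4 : b n = 0 := hn2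
      rw [hθφ, hφb] at e2
      rw [mem_kerS]
      rw [e3, e4] at e1
      grind

/-- The criterion: not self-similar of index two. -/
theorem not_ss (h2 : P2 G) (h : PD G 3) {θ : G → ZMod (2 ^ (K + 1))} (hθ : Ch θ)
    (hv : VG θ) (q1 q2 : ZMod (2 ^ (K + 1)) → ZMod 2)
    (hq1 : Hm fun g => q1 (θ g)) (hq2 : Hm fun g => q2 (θ g))
    (hind : ∀ γ δ : ZMod 2, (∀ g, γ * q1 (θ g) + δ * q2 (θ g) = 0) → γ = 0 ∧ δ = 0) :
    ¬ IsSelfSimilarOfIndex 2 G :=
  not_selfSimilar fun {_} ha h0 φ hφ =>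
    exists_invariant h2 h hθ hv q1 q2 hq1 hq2 hind ha h0 φ hφ

end Main

end Pool.Agent.H26.DM
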