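import Pool.Agent.H26.DM.Th

set_option autoImplicit false
set_option linter.unusedSectionVars false

/-!
# Reduction of dualizing characters to lower levels, and forms over `ℤ/2`
-/

namespace Pool.Agent.H26.DM

open Pool.Agent.K7.H77.Dem (Hm Zc Bd PD P2 kerS mem_kerS)

section Red

variable {K' K : ℕ}

/-- reduction modulo `2^(K'+1)` -/
def red (h : K' ≤ K) : ZMod (2 ^ (K + 1)) →+* ZMod (2 ^ (K' + 1)) :=
  ZMod.castHom (pow_dvd_pow 2 (by omega)) _

lemma red_nat (h : K' ≤ K) (n : ℕ) : red h (n : ZMod (2 ^ (K + 1))) = n := map_natCast _ _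

lemma red_pow (h : K' ≤ K) {i : ℕ} (hi : i ≤ K' + 1) (y : ZMod (2 ^ (K + 1))) :
    2 ^ i * red h y = 0 ↔ 2 ^ (i + (K - K')) * y = 0 := by
  obtain ⟨n, rfl⟩ := exists_nat y
  rw [red_nat, pow_mul_eq_zero_iff hi, pow_mul_eq_zero_iff (by omega)]
  have : K + 1 - (i + (K - K')) = K' + 1 - i := by omega
  rw [this]

lemma red_eq_zero (h : K' ≤ K) (y : ZMod (2 ^ (K + 1))) :
    red h y = 0 ↔ 2 ^ (K - K') * y = 0 := by
  have := red_pow h (i := 0) (by omega) y
  rwa [pow_zero, one_mul, zero_add] at this

variable {G : Type*} [Group G] [TopologicalSpace G]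

lemma cont_red (h : K' ≤ K) {c : G → ZMod (2 ^ (K + 1))} (hc : Continuous c) :
    Continuous fun g => red h (c g) :=
  (continuous_of_discreteTopology (f := red h)).comp hc

lemma Ch.red (h : K' ≤ K) {θ : G → ZMod (2 ^ (K + 1))} (hθ : Ch θ) :
    Ch fun g => DM.red h (θ g) :=
  ⟨cont_red h hθ.cont, by simp [hθ.one], fun g k => by simp [hθ.mul]⟩

lemma VG.red (h : K' ≤ K) {θ : G → ZMod (2 ^ (K + 1))} (hv : VG θ) :
    VG fun g => DM.red h (θ g) := by
  intro i hi c hc hd
  let σ : ZMod (2 ^ (K' + 1)) → ZMod (2 ^ (K + 1)) := fun y => ((y.val : ℕ) : ZMod (2 ^ (K + 1)))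
  have hσ : ∀ y, DM.red h (σ y) = y := by
    intro y
    change DM.red h ((y.val : ℕ) : ZMod (2 ^ (K + 1))) = y
    rw [red_nat]
    simp
  have hσc : Continuous (fun g => σ (c g)) := (continuous_of_discreteTopology (f := σ)).comp hc
  have hdf : ∀ (e : G → ZMod (2 ^ (K + 1))) g k, DM.red h (df θ e g k) =
      df (fun g => DM.red h (θ g)) (fun g => DM.red h (e g)) g k := by
    intro e g k
    simp only [df, map_sub, map_add, map_mul]
  obtain ⟨c', hc', h1, h2⟩ := hv (i + (K - K')) (by omega) (fun g => σ (c g)) hσc (fun g k => by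
    have h3 := hd g k
    rw [← mul_assoc, ← pow_succ'] at h3 ⊢
    have h4 : df (fun g => DM.red h (θ g)) c g k = DM.red h (df θ (fun g => σ (c g)) g k) := by
      rw [hdf]
      simp only [hσ]
    rw [h4, red_pow h (by omega)] at h3
    have h5 : i + (K - K') + 1 = i + 1 + (K - K') := by omega
    rw [h5]
    exact h3)
  refine ⟨fun g => DM.red h (c' g), cont_red h hc', fun g => ?_, fun g k => ?_⟩
  · have h3 := h1 g
    rw [← mul_assoc, ← pow_succ'] at h3 ⊢
    have h4 : DM.red h (c' g) - c g = DM.red h (c' g - σ (c g)) := by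
      rw [map_sub, hσ]
    rw [h4, red_pow h (by omega)]
    have h5 : i + (K - K') + 1 = i + 1 + (K - K') := by omega
    rw [← h5]
    exact h3
  · have h3 := h2 g k
    rw [← hdf, red_pow h (by omega)]
    exact h3

end Red

/-- A nondegenerate symmetric form on a space with eight elements over `ℤ/2`: its characteristic
vector is not isotropic. -/
lemma form {V : Type*} [AddCommGroup V] (hc : Nat.card V = 8) (h2 : ∀ v : V, v + v = 0)
    (B : V → V → ZMod 2) (hl : ∀ a b c, B (a + b) c = B a c + B b c)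
    (hs : ∀ a b, B a b = B b a)
    (nd : ∀ a, a ≠ 0 → ∃ b, B a b ≠ 0) (w : V) (hw : ∀ a, B a a = B w a) : B w w ≠ 0 := by
  intro hww
  have hfin : Finite V := Nat.finite_of_card_ne_zero (by rw [hc]; norm_num)
  have hx : ∀ x : ZMod 2, x = 0 ∨ x = 1 := by decide
  have hr : ∀ a b c, B a (b + c) = B a b + B a c := fun a b c => by
    rw [hs, hl, hs b, hs c]
  let F : V → V →+ ZMod 2 := fun a => AddMonoidHom.mk' (B a) (hr a)
  have hF : ∀ a x, x ∈ (F a).ker ↔ B a x = 0 := fun a x => Iff.rfl
  have hle : ∀ a, a ≠ 0 → Nat.card (F a).ker ≤ 4 := by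
    intro a ha
    have h3 : Nat.card (F a).ker ∣ 8 := hc ▸ AddSubgroup.card_addSubgroup_dvd_card _
    have h4 : Nat.card (F a).ker ≠ 8 := by
      intro h4
      obtain ⟨b, hb⟩ := nd a ha
      have h5 : (F a).ker = ⊤ := AddSubgroup.eq_top_of_card_eq _ (by rw [h4, hc])
      have h6 : b ∈ (F a).ker := by rw [h5]; trivial
      exact hb h6
    have h5 : Nat.card (F a).ker ≤ 8 := Nat.le_of_dvd (by norm_num) h3
    generalize Nat.card (F a).ker = m at h3 h4 h5
    interval_cases m <;> omega
  have hge : ∀ a, 4 ≤ Nat.card (F a).ker := by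
    intro a
    have h3 := (F a).ker.card_mul_index
    have h4 : (F a).ker.index ≤ 2 := by
      rw [AddSubgroup.index_ker]
      calc Nat.card (F a).range ≤ Nat.card (ZMod 2) := Nat.card_le_card_of_injective _
            Subtype.val_injective
        _ = 2 := Nat.card_zmod 2
    rw [hc] at h3
    nlinarith
  -- the vector `u`
  obtain ⟨u, hu0, huu, hu⟩ : ∃ u : V, u ≠ 0 ∧ B u u = 0 ∧ ∀ a, B u a = 0 → B a a = 0 := by
    by_cases hw0 : w = 0
    · have h0 : ∀ a, B w a = 0 := by
        intro a
        have := hl 0 0 a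
        rw [add_zero] at this
        rw [hw0]
        linear_combination -this
      have : Nontrivial V := by
        rw [← Finite.one_lt_card_iff_nontrivial, hc]
        norm_num
      obtain ⟨u, hu⟩ := exists_ne (0 : V)
      exact ⟨u, hu, by rw [hw, h0], fun a _ => by rw [hw, h0]⟩
    · exact ⟨w, hw0, hww, fun a ha => by rw [hw, ha]⟩
  obtain ⟨a, ha, ha0, hau⟩ : ∃ a : V, B u a = 0 ∧ a ≠ 0 ∧ a ≠ u := by
    by_contra hcon
    push Not at hcon
    have h3 : ((F u).ker : Set V) ⊆ {0, u} := by
      intro x hx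
      by_cases hx0 : x = 0
      · exact Or.inl hx0
      · exact Or.inr (hcon x hx hx0)
    have h4 : ((F u).ker : Set V).ncard ≤ ({0, u} : Set V).ncard :=
      Set.ncard_le_ncard h3 (Set.toFinite _)
    have h5 : ({0, u} : Set V).ncard ≤ 2 := Set.ncard_insert_le _ _ |>.trans (by
      rw [Set.ncard_singleton])
    have h6 : ((F u).ker : Set V).ncard = Nat.card (F u).ker := rfl
    have h7 := hge u
    omega
  have haa := hu a ha
  have hS : ({0, a, u, a + u} : Set V).ncard = 4 := by
    have n1 : a + u ≠ 0 := fun h => hau (by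
      have := h2 u
      rw [← h] at this
      exact (add_right_cancel this).symm)
    have n2 : a ≠ a + u := fun h => hu0 (by
      have h3 : a + 0 = a + u := by rw [add_zero]; exact h
      exact (add_left_cancel h3).symm)
    have n3 : u ≠ a + u := fun h => ha0 (by
      have h3 : 0 + u = a + u := by rw [zero_add]; exact h
      exact (add_right_cancel h3).symm)
    classical
    rw [Set.ncard_insert_of_notMem, Set.ncard_insert_of_notMem, Set.ncard_pair n3]
    · intro h
      rcases h with h | h
      · exact hau h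
      · exact n2 h
    · intro h
      rcases h with h | h | h
      · exact ha0 h.symm
      · exact hu0 h.symm
      · exact n1 h.symm
  have hau' : B a u = 0 := by rw [hs]; exact ha
  have h00 : ∀ b, B b 0 = 0 := fun b => (F b).map_zero
  have e1 : ({0, a, u, a + u} : Set V) = ((F a).ker : Set V) := by
    refine Set.eq_of_subset_of_ncard_le ?_ ?_ (Set.toFinite _)
    · rintro x (rfl | rfl | rfl | rfl)
      · exact h00 _
      · exact haa
      · exact hau'
      · change B a (a + u) = 0
        rw [hr, haa, hau', add_zero]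
    · rw [hS]
      exact hle a ha0
  have e2 : ({0, a, u, a + u} : Set V) = ((F u).ker : Set V) := by
    refine Set.eq_of_subset_of_ncard_le ?_ ?_ (Set.toFinite _)
    · rintro x (rfl | rfl | rfl | rfl)
      · exact h00 _
      · exact ha
      · exact huu
      · change B u (a + u) = 0
        rw [hr, ha, huu, add_zero]
    · rw [hS]
      exact hle u hu0
  have e3 : ∀ x, B a x = B u x := by
    intro x
    have h3 : B a x = 0 ↔ B u x = 0 := by
      have h4 : x ∈ ((F a).ker : Set V) ↔ x ∈ ((F u).ker : Set V) := by rw [← e1, ← e2]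
      exact h4
    rcases hx (B a x) with h4 | h4 <;> rcases hx (B u x) with h5 | h5
    · rw [h4, h5]
    · rw [h3.1 h4] at h5
      exact absurd h5 (by decide)
    · rw [h3.2 h5] at h4
      exact absurd h4 (by decide)
    · rw [h4, h5]
  have n1 : a + u ≠ 0 := fun h => hau (by
    have := h2 u
    rw [← h] at this
    exact (add_right_cancel this).symm)
  obtain ⟨b, hb⟩ := nd _ n1
  apply hb
  rw [hl, e3]
  exact (show ∀ x : ZMod 2, x + x = 0 by decide) _

end Pool.Agent.H26.DM
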