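import Pool.Graph.R_pool_sql_team_seeded_35f281b4.K7.H77.Dem.Tree

set_option autoImplicit false
set_option linter.unusedSectionVars false

/-!
# Dualizing characters modulo `2 ^ (K + 1)`

Characters `θ` with values in `(ℤ/2^(K+1))ˣ` such that crossed homomorphisms modulo `2^j` lift to
crossed homomorphisms modulo `2^(j+1)`. They are unique in the presence of duality and restrict to
subgroups of index two. This generalizes the case `K = 2` of the starting library.
-/

namespace Pool.Agent.H26.DM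

open Pool.Agent.K7.H77.Dem (Hm Zc Bd PD P2 kerS rep uu cor1 cor2 mem_kerS)

section Ring

variable {K : ℕ}

lemma two_pow_zero : (2 : ZMod (2 ^ (K + 1))) ^ (K + 1) = 0 := by
  have := ZMod.natCast_self (2 ^ (K + 1))
  exact_mod_cast this

lemma two_mul_half : (2 : ZMod (2 ^ (K + 1))) * 2 ^ K = 0 := by
  rw [← pow_succ', two_pow_zero]

lemma half_ne : (2 : ZMod (2 ^ (K + 1))) ^ K ≠ 0 := by
  intro h
  have h1 : ((2 ^ K : ℕ) : ZMod (2 ^ (K + 1))) = 0 := by exact_mod_cast h
  rw [ZMod.natCast_eq_zero_iff] at h1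
  have h2 := Nat.le_of_dvd (by positivity) h1
  have h3 : 2 ^ K < 2 ^ (K + 1) := Nat.pow_lt_pow_right (by norm_num) (by omega)
  omega

lemma exists_nat (y : ZMod (2 ^ (K + 1))) : ∃ n : ℕ, y = (n : ZMod (2 ^ (K + 1))) :=
  ⟨y.val, by simp⟩

lemma pow_mul_eq_zero_iff {i : ℕ} (hi : i ≤ K + 1) (n : ℕ) :
    (2 : ZMod (2 ^ (K + 1))) ^ i * (n : ZMod (2 ^ (K + 1))) = 0 ↔ 2 ^ (K + 1 - i) ∣ n := by
  have h1 : (2 : ZMod (2 ^ (K + 1))) ^ i * (n : ZMod (2 ^ (K + 1))) =
      ((2 ^ i * n : ℕ) : ZMod (2 ^ (K + 1))) := by push_cast; rfl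
  rw [h1, ZMod.natCast_eq_zero_iff]
  have h2 : 2 ^ (K + 1) = 2 ^ i * 2 ^ (K + 1 - i) := by
    rw [← pow_add]; congr 1; omega
  rw [h2]
  exact Nat.mul_dvd_mul_iff_left (by positivity)

/-- an element killed by `2^i` is a multiple of `2^(K+1-i)` -/
lemma exists_of_pow_mul {i : ℕ} (hi : i ≤ K + 1) {y : ZMod (2 ^ (K + 1))}
    (h : (2 : ZMod (2 ^ (K + 1))) ^ i * y = 0) : ∃ z, y = 2 ^ (K + 1 - i) * z := by
  obtain ⟨n, rfl⟩ := exists_nat y
  rw [pow_mul_eq_zero_iff hi] at h
  obtain ⟨m, hm⟩ := h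
  exact ⟨m, by rw [hm]; push_cast; rfl⟩

lemma even_or_odd (y : ZMod (2 ^ (K + 1))) : (∃ z, y = 2 * z) ∨ ∃ z, y = 1 + 2 * z := by
  obtain ⟨n, rfl⟩ := exists_nat y
  rcases Nat.even_or_odd' n with ⟨m, rfl | rfl⟩
  · exact Or.inl ⟨m, by push_cast; rfl⟩
  · exact Or.inr ⟨m, by push_cast; ring⟩

lemma half_mul (y : ZMod (2 ^ (K + 1))) : (2 : ZMod (2 ^ (K + 1))) ^ K * y = 0 ∨
    (2 : ZMod (2 ^ (K + 1))) ^ K * y = 2 ^ K := by
  have h := two_mul_half (K := K)
  rcases even_or_odd y with ⟨z, rfl⟩ | ⟨z, rfl⟩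
  · exact Or.inl (by linear_combination z * h)
  · exact Or.inr (by linear_combination z * h)

lemma eq_of_two_mul {y : ZMod (2 ^ (K + 1))} (h : 2 * y = 0) : y = 0 ∨ y = 2 ^ K := by
  obtain ⟨z, hz⟩ := exists_of_pow_mul (K := K) (i := 1) (y := y) (by omega)
    (by rw [pow_one]; exact h)
  rw [Nat.add_sub_cancel] at hz
  rw [hz]
  exact half_mul z

/-- the embedding of `ℤ/2` in `ℤ/2^(K+1)` -/
def io (K : ℕ) (x : ZMod 2) : ZMod (2 ^ (K + 1)) := if x = 0 then 0 else 2 ^ K

/-- a left inverse of `io` -/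
def ka (y : ZMod (2 ^ (K + 1))) : ZMod 2 := if y = 0 then 0 else 1

lemma zmod_two (x : ZMod 2) : x = 0 ∨ x = 1 := by revert x; decide

lemma io_zero : io K 0 = 0 := by simp [io]

lemma io_one : io K 1 = 2 ^ K := by simp [io]

lemma io_add (x y : ZMod 2) : io K (x + y) = io K x + io K y := by
  have h := two_mul_half (K := K)
  rcases zmod_two x with rfl | rfl <;> rcases zmod_two y with rfl | rfl
  · simp [io_zero]
  · simp [io_zero]
  · simp [io_zero]
  · rw [show (1 : ZMod 2) + 1 = 0 by decide, io_zero, io_one]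
    linear_combination -h

lemma io_inj {x y : ZMod 2} (h : io K x = io K y) : x = y := by
  rcases zmod_two x with rfl | rfl <;> rcases zmod_two y with rfl | rfl
  · rfl
  · rw [io_zero, io_one] at h
    exact absurd h.symm half_ne
  · rw [io_zero, io_one] at h
    exact absurd h half_ne
  · rfl

lemma ka_zero : ka (0 : ZMod (2 ^ (K + 1))) = 0 := by simp [ka]

lemma ka_half : ka ((2 : ZMod (2 ^ (K + 1))) ^ K) = 1 := by simp [ka, half_ne]

lemma io_ka {y : ZMod (2 ^ (K + 1))} (h : 2 * y = 0) : io K (ka y) = y := by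
  rcases eq_of_two_mul h with rfl | rfl
  · rw [ka_zero, io_zero]
  · rw [ka_half, io_one]

lemma two_io (x : ZMod 2) : 2 * io K x = 0 := by
  rcases zmod_two x with rfl | rfl
  · rw [io_zero, mul_zero]
  · rw [io_one, two_mul_half]

lemma odd_of_unit {x z : ZMod (2 ^ (K + 1))} (h : x * z = 1) : ∃ x', x = 1 + 2 * x' := by
  rcases even_or_odd x with ⟨w, rfl⟩ | h1
  · exfalso
    have h2 := two_mul_half (K := K)
    exact half_ne (K := K) (by linear_combination w * z * h2 - 2 ^ K * h)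
  · exact h1

lemma unit_mul {x z y : ZMod (2 ^ (K + 1))} (h : x * z = 1) (hy : 2 * y = 0) : x * y = y := by
  obtain ⟨x', rfl⟩ := odd_of_unit h
  linear_combination x' * hy

lemma unit_sub {x z x' z' : ZMod (2 ^ (K + 1))} (h : x * z = 1) (h' : x' * z' = 1) :
    2 ^ K * (x - x') = 0 := by
  obtain ⟨w, rfl⟩ := odd_of_unit h
  obtain ⟨w', rfl⟩ := odd_of_unit h'
  have h2 := two_mul_half (K := K)
  linear_combination (w - w') * h2

lemma exists_lift {i : ℕ} (hi : i ≤ K) :
    ∃ m : ZMod 2 → ZMod (2 ^ (K + 1)), ∀ x, 2 ^ i * m x = io K x := by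
  refine ⟨fun x => if x = 0 then 0 else 2 ^ (K - i), fun x => ?_⟩
  rcases zmod_two x with rfl | rfl
  · simp [io_zero]
  · simp only [one_ne_zero, if_false, io_one]
    rw [← pow_add]
    congr 1
    omega

lemma io_mul {y z : ZMod (2 ^ (K + 1))} {w : ZMod 2} (h : 2 * y = 0) (h' : 2 ^ K * z = io K w) :
    io K (ka y * w) = y * z := by
  rcases eq_of_two_mul h with rfl | rfl
  · rw [ka_zero, zero_mul, zero_mul, io_zero]
  · rw [ka_half, one_mul, h']

lemma ka_zero_iff {y : ZMod (2 ^ (K + 1))} (h : ka y = 0) : y = 0 := by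
  by_contra hy
  simp [ka, hy] at h

end Ring

section Ch

variable {K : ℕ} {G : Type*} [Group G] [TopologicalSpace G]

/-- continuous characters with values in `ℤ/2^(K+1)` -/
structure Ch (θ : G → ZMod (2 ^ (K + 1))) : Prop where
  cont : Continuous θ
  one : θ 1 = 1
  mul : ∀ g h, θ (g * h) = θ g * θ h

lemma Ch.inv {θ : G → ZMod (2 ^ (K + 1))} (h : Ch θ) (g : G) : θ g * θ g⁻¹ = 1 := by
  rw [← h.mul, mul_inv_cancel, h.one]

lemma Ch.comp {G' : Type*} [Group G'] [TopologicalSpace G'] {θ : G → ZMod (2 ^ (K + 1))} (h : Ch θ)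
    (φ : G' →* G) (hφ : Continuous φ) : Ch (fun g => θ (φ g)) :=
  ⟨h.cont.comp hφ, by simp [h.one], fun g k => by simp [h.mul]⟩

/-- the defect of a crossed homomorphism -/
def df (θ c : G → ZMod (2 ^ (K + 1))) (g h : G) : ZMod (2 ^ (K + 1)) := c g + θ g * c h - c (g * h)

/-- Crossed homomorphisms with respect to `θ` lift from `ℤ/2^j` to `ℤ/2^(j+1)` for `1 ≤ j ≤ K`
(where `j = K - i`). -/
def VG (θ : G → ZMod (2 ^ (K + 1))) : Prop :=
  ∀ i : ℕ, i + 1 ≤ K → ∀ c : G → ZMod (2 ^ (K + 1)), Continuous c →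
    (∀ g h, 2 * (2 ^ i * df θ c g h) = 0) →
    ∃ c' : G → ZMod (2 ^ (K + 1)), Continuous c' ∧ (∀ g, 2 * (2 ^ i * (c' g - c g)) = 0) ∧
      ∀ g h, 2 ^ i * df θ c' g h = 0

/-- `θ : G → (ℤ/2^(K+1))ˣ` is a dualizing character of `G` modulo `2^(K+1)`: it is a continuous
character, and each continuous `c : G → ℤ/2^j` with `c (g h) = c g + θ g * c h`, where `1 ≤ j ≤ K`,
lifts to a continuous `c' : G → ℤ/2^(j+1)` with `c' (g h) = c' g + θ g * c' h`. -/
def IsDualizing (θ : G → ZMod (2 ^ (K + 1))) : Prop := Ch θ ∧ VG θ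

/-- invariance under isomorphisms -/
lemma VG.congr {G' : Type*} [Group G'] [TopologicalSpace G'] {θ : G → ZMod (2 ^ (K + 1))}
    (h : VG θ) (e : G' ≃* G) (he : Continuous e) (he' : Continuous e.symm) :
    VG (fun g => θ (e g)) := by
  intro s hs c hc h1
  obtain ⟨c', hc', h2, h3⟩ := h s hs (fun g => c (e.symm g)) (hc.comp he') (fun g k => by
    have := h1 (e.symm g) (e.symm k)
    simpa [df] using this)
  refine ⟨fun g => c' (e g), hc'.comp he, fun g => by simpa using h2 (e g), fun g k => ?_⟩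
  have := h3 (e g) (e k)
  simpa [df] using this

lemma df_cocycle {θ : G → ZMod (2 ^ (K + 1))} (hθ : Ch θ) (c : G → ZMod (2 ^ (K + 1)))
    (g h k : G) :
    df θ c g h + df θ c (g * h) k = θ g * df θ c h k + df θ c g (h * k) := by
  simp only [df, hθ.mul, mul_assoc]
  ring

lemma cont_ka {f f' : G → ZMod (2 ^ (K + 1))} (hf : Continuous f) (hf' : Continuous f')
    (s : ZMod (2 ^ (K + 1))) :
    Continuous fun g => ka (s * (f g - f' g)) :=
  (continuous_of_discreteTopology (f := fun p : ZMod (2 ^ (K + 1)) × ZMod (2 ^ (K + 1)) =>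
    ka (s * (p.1 - p.2)))).comp (hf.prodMk hf')

/-- The comparison of two characters. -/
lemma cmp {θ₁ θ₂ : G → ZMod (2 ^ (K + 1))} (h₁ : Ch θ₁) {s : ZMod (2 ^ (K + 1))}
    (hθ : ∀ g, 2 * (s * (θ₂ g - θ₁ g)) = 0) {a : G → ZMod 2} {c₁ c₂ : G → ZMod (2 ^ (K + 1))}
    (hc₁ : Continuous c₁) (hc₂ : Continuous c₂)
    (hd₁ : ∀ g h, s * df θ₁ c₁ g h = 0) (hd₂ : ∀ g h, s * df θ₂ c₂ g h = 0)
    (hc : ∀ g, 2 * (s * (c₂ g - c₁ g)) = 0) (h4 : ∀ g, 2 ^ K * c₂ g = io K (a g)) :
    Bd (fun g h => ka (s * (θ₂ g - θ₁ g)) * a h) := by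
  refine ⟨fun g => ka (s * (c₂ g - c₁ g)), cont_ka hc₂ hc₁ s,
    fun g h => io_inj (K := K) ?_⟩
  have e1 := hd₁ g h
  have e2 := hd₂ g h
  simp only [df] at e1 e2
  have e3 : θ₁ g * (s * (c₂ h - c₁ h)) = s * (c₂ h - c₁ h) := unit_mul (h₁.inv g) (hc h)
  beta_reduce
  rw [io_mul (hθ g) (h4 h), io_add, io_add, io_ka (hc g), io_ka (hc h), io_ka (hc (g * h))]
  linear_combination e2 - e1 - e3 - hc g - hc h

lemma hm_ka {θ₁ θ₂ : G → ZMod (2 ^ (K + 1))} (h₁ : Ch θ₁) (h₂ : Ch θ₂) {s : ZMod (2 ^ (K + 1))}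
    (hθ : ∀ g, 2 * (s * (θ₂ g - θ₁ g)) = 0) : Hm (fun g => ka (s * (θ₂ g - θ₁ g))) := by
  refine ⟨cont_ka h₂.cont h₁.cont s, fun g h => io_inj (K := K) ?_⟩
  beta_reduce
  rw [io_add, io_ka (hθ g), io_ka (hθ h), io_ka (hθ (g * h)), h₁.mul, h₂.mul]
  have e1 : θ₂ h * (s * (θ₂ g - θ₁ g)) = s * (θ₂ g - θ₁ g) := unit_mul (h₂.inv h) (hθ g)
  have e2 : θ₁ g * (s * (θ₂ h - θ₁ h)) = s * (θ₂ h - θ₁ h) := unit_mul (h₁.inv g) (hθ h)
  linear_combination e1 + e2

/-- lifts of homomorphisms to `ℤ/2` -/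
lemma VG.lift {θ : G → ZMod (2 ^ (K + 1))} (hθ : Ch θ) (hv : VG θ) {b : G → ZMod 2} (hb : Hm b) :
    ∀ m : ℕ, m ≤ K → ∃ c : G → ZMod (2 ^ (K + 1)), Continuous c ∧
      (∀ g h, 2 ^ (K - m) * df θ c g h = 0) ∧ ∀ g, 2 ^ K * c g = io K (b g) := by
  intro m
  induction m with
  | zero =>
    intro _
    let li : ZMod 2 → ZMod (2 ^ (K + 1)) := fun x => if x = 0 then 0 else 1
    have hli : ∀ x, 2 ^ K * li x = io K x := by
      intro x
      rcases zmod_two x with rfl | rfl
      · simp [li, io_zero]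
      · simp [li, io_one]
    refine ⟨fun g => li (b g), (continuous_of_discreteTopology (f := li)).comp hb.1,
      fun g h => ?_, fun g => hli _⟩
    have e1 : θ g * io K (b h) = io K (b h) := unit_mul (hθ.inv g) (two_io _)
    have e2 := hb.2 g h
    have e3 := io_add (K := K) (b g) (b h)
    have e6 := hli (b g)
    have e7 := hli (b h)
    have e8 := hli (b (g * h))
    rw [e2, e3] at e8
    simp only [df, Nat.sub_zero]
    rw [e2]
    linear_combination e6 + θ g * e7 + e1 - e8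
  | succ m ih =>
    intro hm
    obtain ⟨c, hc, h1, h2⟩ := ih (by omega)
    have hpow : (2 : ZMod (2 ^ (K + 1))) ^ (K - m) = 2 * 2 ^ (K - (m + 1)) := by
      rw [← pow_succ']; congr 1; omega
    obtain ⟨c', hc', h3, h4⟩ := hv (K - (m + 1)) (by omega) c hc (fun g h => by
      rw [← mul_assoc, ← hpow]; exact h1 g h)
    refine ⟨c', hc', h4, fun g => ?_⟩
    have h5 := h3 g
    have h6 : (2 : ZMod (2 ^ (K + 1))) ^ K = 2 ^ m * (2 * 2 ^ (K - (m + 1))) := by
      rw [← hpow, ← pow_add]; congr 1; omega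
    rw [← h2, h6]
    linear_combination 2 ^ m * h5

/-- **Uniqueness.** -/
theorem VG.unique {n : ℕ} (h : PD G n) {θ₁ θ₂ : G → ZMod (2 ^ (K + 1))} (h₁ : Ch θ₁) (h₂ : Ch θ₂)
    (hv₁ : VG θ₁) (hv₂ : VG θ₂) : θ₁ = θ₂ := by
  have key : ∀ m : ℕ, m ≤ K → ∀ g, 2 ^ (K - m) * (θ₂ g - θ₁ g) = 0 := by
    intro m
    induction m with
    | zero => exact fun _ g => unit_sub (h₂.inv g) (h₁.inv g)
    | succ m ih =>
      intro hm
      have hpow : (2 : ZMod (2 ^ (K + 1))) ^ (K - m) = 2 * 2 ^ (K - (m + 1)) := by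
        rw [← pow_succ']; congr 1; omega
      have hθ : ∀ g, 2 * (2 ^ (K - (m + 1)) * (θ₂ g - θ₁ g)) = 0 := fun g => by
        rw [← mul_assoc, ← hpow]; exact ih (by omega) g
      by_contra hcon
      push Not at hcon
      obtain ⟨g, hg⟩ := hcon
      obtain ⟨b, hb, hnb⟩ := h.nd _ (hm_ka h₁ h₂ hθ) ⟨g, fun h => hg (ka_zero_iff h)⟩
      obtain ⟨c, hc, h3, h4⟩ := hv₁.lift h₁ hb m (by omega)
      obtain ⟨c₁, hc₁, h5, h6⟩ := hv₁ (K - (m + 1)) (by omega) c hc (fun g h => by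
        rw [← mul_assoc, ← hpow]; exact h3 g h)
      obtain ⟨c₂, hc₂, h7, h8⟩ := hv₂ (K - (m + 1)) (by omega) c hc (fun g h => by
        have e1 := h3 g h
        have e2 := hθ g
        rw [hpow] at e1
        simp only [df] at *
        linear_combination e1 + c h * e2)
      refine hnb (cmp h₁ hθ hc₁ hc₂ h6 h8 (fun g => ?_) fun g => ?_)
      · linear_combination h7 g - h5 g
      · have h9 : (2 : ZMod (2 ^ (K + 1))) ^ K = 2 ^ m * (2 * 2 ^ (K - (m + 1))) := by
          rw [← hpow, ← pow_add]; congr 1; omega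
        have h10 := h4 g
        rw [h9] at h10 ⊢
        linear_combination h10 + 2 ^ m * h7 g
  funext g
  have := key K le_rfl g
  rw [Nat.sub_self, pow_zero, one_mul, sub_eq_zero] at this
  exact this.symm

end Ch

section Two

variable {K : ℕ} {G : Type*} [Group G] [TopologicalSpace G] [IsTopologicalGroup G]
variable {a : G → ZMod 2} (ha : Hm a) {t : G} (ht : a t = 1)

open Pool.Agent.K7.H77.Dem (continuous_rep continuous_uu uu_mul sum_two')

include ht in
/-- Restriction to a subgroup of index two. -/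
theorem VG.res {n : ℕ} (h : PD G n) {θ : G → ZMod (2 ^ (K + 1))} (hθ : Ch θ) (hv : VG θ) :
    VG (fun u : kerS ha => θ u) := by
  intro i hi c hc hD
  have hac := ha.1
  have hθu : Ch (fun u : kerS ha => θ u) := hθ.comp (kerS ha).subtype continuous_subtype_val
  set θ' : kerS ha → ZMod (2 ^ (K + 1)) := fun u => θ u with hθ'
  set s : ZMod (2 ^ (K + 1)) := 2 ^ i with hs
  -- the cocycle
  let f : kerS ha → kerS ha → ZMod 2 := fun u v => ka (s * df θ' c u v)
  have hio : ∀ u v, io K (f u v) = s * df θ' c u v := fun u v => io_ka (hD u v)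
  have hf : Zc f := by
    constructor
    · have h1 : Continuous fun x : kerS ha × kerS ha => s * df θ' c x.1 x.2 := by
        simp only [df]
        have h2 := hθu.cont
        fun_prop
      exact (continuous_of_discreteTopology (f := ka)).comp h1
    · intro g h k
      apply io_inj (K := K)
      rw [io_add, io_add, hio, hio, hio, hio]
      have e1 := df_cocycle hθu c g h k
      have e2 : θ' g * (s * df θ' c h k) = s * df θ' c h k := unit_mul (hθu.inv g) (hD h k)
      linear_combination s * e1 + e2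
  -- the transfer of `c`
  let F : ZMod 2 → G → ZMod (2 ^ (K + 1)) := fun j g => θ (rep t (j + a g)) * c (uu ha ht j g)
  let C : G → ZMod (2 ^ (K + 1)) := fun g => F 0 g + F 1 g
  have hFc : ∀ j, Continuous (F j) := by
    intro j
    have e : Continuous fun g : G => j + a g := by fun_prop
    exact (hθ.cont.comp ((continuous_rep t).comp e)).mul (hc.comp (continuous_uu ha ht j))
  have hC : Continuous C := (hFc 0).add (hFc 1)
  have hterm : ∀ i g h, F (i + a h) g + θ g * F i h - F i (g * h) =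
      θ (rep t (i + a h + a g)) * df θ' c (uu ha ht (i + a h) g) (uu ha ht i h) := by
    intro i g h
    have e1 : i + a (g * h) = i + a h + a g := by rw [ha.2]; ring
    have e2 : θ g * θ (rep t (i + a h)) =
        θ (rep t (i + a h + a g)) * θ' (uu ha ht (i + a h) g) := by
      rw [hθ', ← hθ.mul, ← hθ.mul]
      congr 1
      simp only [uu]
      group
    simp only [F, df, e1, uu_mul]
    linear_combination c (uu ha ht i h) * e2
  have hDC : ∀ g h, s * df θ C g h = io K (cor2 ha ht f g h) := by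
    intro g h
    have e1 := sum_two' (fun j => F j g) (a h)
    have e2 := hterm 0 g h
    have e3 := hterm 1 g h
    have e4 := hD (uu ha ht (0 + a h) g) (uu ha ht 0 h)
    have e5 := hD (uu ha ht (1 + a h) g) (uu ha ht 1 h)
    have e6 := unit_mul (hθ.inv (rep t (0 + a h + a g))) e4
    have e7 := unit_mul (hθ.inv (rep t (1 + a h + a g))) e5
    simp only [cor2]
    rw [io_add, hio, hio]
    have e8 : df θ C g h = (F (0 + a h) g + θ g * F 0 h - F 0 (g * h)) +
        (F (1 + a h) g + θ g * F 1 h - F 1 (g * h)) := by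
      simp only [df, C]
      linear_combination -e1
    rw [e8, e2, e3]
    linear_combination e6 + e7
  obtain ⟨C', hC', h1, h2⟩ := hv i hi C hC (fun g h => by rw [← hs, hDC]; exact two_io _)
  rw [← hs] at h1 h2
  -- the coboundary
  have hBd : Bd (cor2 ha ht f) := by
    refine ⟨fun g => ka (s * (C' g - C g)), cont_ka hC' hC s,
      fun g h => io_inj (K := K) ?_⟩
    beta_reduce
    rw [← hDC, io_add, io_add, io_ka (h1 g), io_ka (h1 h), io_ka (h1 (g * h))]
    have e1 := h2 g h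
    have e2 : θ g * (s * (C' h - C h)) = s * (C' h - C h) := unit_mul (hθ.inv g) (h1 h)
    simp only [df] at *
    linear_combination e1 - e2 - h1 g - h1 h
  obtain ⟨ξ, hξ, h3⟩ := h.inj_cor ha ht hf hBd
  obtain ⟨m, hm⟩ := exists_lift (K := K) (i := i) (by omega)
  rw [← hs] at hm
  have hmc : Continuous fun u => m (ξ u) := (continuous_of_discreteTopology (f := m)).comp hξ
  refine ⟨fun u => c u + m (ξ u), hc.add hmc, fun u => ?_, fun u v => ?_⟩
  · have := two_io (K := K) (ξ u)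
    rw [← hm] at this
    linear_combination this
  · have e1 := hio u v
    have e2 := congrArg (io K) (h3 u v)
    rw [io_add, io_add, e1] at e2
    have e3 := hm (ξ u)
    have e4 := hm (ξ v)
    have e5 := hm (ξ (u * v))
    have e6 : θ' u * io K (ξ v) = io K (ξ v) := unit_mul (hθu.inv u) (two_io _)
    have e7 := two_io (K := K) (ξ u)
    have e8 := two_io (K := K) (ξ v)
    simp only [df] at *
    linear_combination e2 + e3 + θ' u * e4 - e5 + e6 + e7 + e8

end Two

end Pool.Agent.H26.DM
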