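import Pool.Agent.H26.DM.Red
import Pool.Agent.H26.DM.Inv

set_option autoImplicit false
set_option linter.unusedSectionVars false

/-!
# The two quadratic characters of the dualizing character

Let `G` be a pro-`2` Demushkin group of rank three and `θ` its dualizing character modulo `2^(K+1)`,
where `K ≥ 2` and `θ` has values in `{±1, ±1 + 2^K}`, not all of them `±1`. Then the image of `θ` has
four elements: the sign `w` of `θ` satisfies `a ∪ a = w ∪ a` for all `a`, hence `w ∪ w ≠ 0` as the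
rank is odd, and if the image was generated by `-1 + 2^K`, then `w` would lift to `ℤ/4`.
-/

namespace Pool.Agent.H26.DM

open Pool.Agent.K7.H77.Dem (Hm Zc Bd PD P2 kerS mem_kerS H1)

section Val

variable {K : ℕ}

/-- the elements of `{±1, ±1 + 2^K}` -/
def vv (K : ℕ) (p r : ZMod 2) : ZMod (2 ^ (K + 1)) := (if p = 0 then 1 else -1) * (1 + io K r)

/-- the sign -/
def q1 (x : ZMod (2 ^ (K + 1))) : ZMod 2 := if 2 * (x - 1) = 0 then 0 else 1

/-- the second quadratic character -/
def q2 (x : ZMod (2 ^ (K + 1))) : ZMod 2 := if x = 1 ∨ x = -1 then 0 else 1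

lemma pow_zero_of {m : ℕ} (hm : K + 1 ≤ m) : (2 : ZMod (2 ^ (K + 1))) ^ m = 0 := by
  obtain ⟨l, rfl⟩ := Nat.exists_eq_add_of_le hm
  rw [pow_add (2 : ZMod (2 ^ (K + 1))) (K + 1) l, two_pow_zero, zero_mul]

lemma io_mul_io (hK : 1 ≤ K) (r r' : ZMod 2) : io K r * io K r' = 0 := by
  have h : (2 : ZMod (2 ^ (K + 1))) ^ K * 2 ^ K = 0 := by
    rw [← pow_add]; exact pow_zero_of (by omega)
  rcases zmod_two r with rfl | rfl <;> rcases zmod_two r' with rfl | rfl <;>
    simp only [io_zero, io_one, mul_zero, zero_mul, h]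

lemma vv_mul (hK : 1 ≤ K) (p r p' r' : ZMod 2) :
    vv K p r * vv K p' r' = vv K (p + p') (r + r') := by
  have h := io_mul_io hK r r'
  unfold vv
  rw [io_add]
  have e : (if p = 0 then (1 : ZMod (2 ^ (K + 1))) else -1) * (if p' = 0 then 1 else -1) =
      if p + p' = 0 then 1 else -1 := by
    rcases zmod_two p with rfl | rfl <;> rcases zmod_two p' with rfl | rfl
    · simp
    · simp
    · simp
    · rw [show (1 : ZMod 2) + 1 = 0 by decide]; simp
  rw [← e]
  linear_combination (if p = 0 then (1 : ZMod (2 ^ (K + 1))) else -1) *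
    (if p' = 0 then 1 else -1) * h

lemma four_ne (hK : 2 ≤ K) : (4 : ZMod (2 ^ (K + 1))) ≠ 0 := by
  intro h
  have h1 : ((4 : ℕ) : ZMod (2 ^ (K + 1))) = 0 := by exact_mod_cast h
  rw [ZMod.natCast_eq_zero_iff] at h1
  have h2 := Nat.le_of_dvd (by norm_num) h1
  have h3 : 2 ^ 3 ≤ 2 ^ (K + 1) := Nat.pow_le_pow_right (by norm_num) (by omega)
  omega

lemma q1_vv (hK : 2 ≤ K) (p r : ZMod 2) : q1 (vv K p r) = p := by
  have h := two_mul_half (K := K)
  have h4 := four_ne hK
  have h2 := two_io (K := K) r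
  rcases zmod_two p with rfl | rfl
  · have : 2 * (vv K 0 r - 1) = 0 := by
      simp only [vv, if_true]
      linear_combination h2
    simp [q1, this]
  · have : 2 * (vv K 1 r - 1) ≠ 0 := by
      intro h5
      apply h4
      simp only [vv, one_ne_zero, if_false] at h5
      linear_combination -h5 - h2
    simp [q1, this]

lemma q2_vv (hK : 2 ≤ K) (p r : ZMod 2) : q2 (vv K p r) = r := by
  have h := two_mul_half (K := K)
  have h4 := four_ne hK
  have hn := half_ne (K := K)
  rcases zmod_two p with rfl | rfl <;> rcases zmod_two r with rfl | rfl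
  · simp [q2, vv, io_zero]
  · have e1 : vv K 0 1 ≠ 1 := by
      intro h5
      simp only [vv, if_true, io_one] at h5
      exact hn (by linear_combination h5)
    have e2 : vv K 0 1 ≠ -1 := by
      intro h5
      simp only [vv, if_true, io_one] at h5
      exact h4 (by linear_combination 2 * h5 - h)
    simp [q2, e1, e2]
  · simp [q2, vv, io_zero]
  · have e1 : vv K 1 1 ≠ 1 := by
      intro h5
      simp only [vv, one_ne_zero, if_false, io_one] at h5
      exact h4 (by linear_combination -2 * h5 - h)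
    have e2 : vv K 1 1 ≠ -1 := by
      intro h5
      simp only [vv, one_ne_zero, if_false, io_one] at h5
      exact hn (by linear_combination -h5)
    simp [q2, e1, e2]

lemma exists_vv {x : ZMod (2 ^ (K + 1))} (h : 2 * (x - 1) = 0 ∨ 2 * (x + 1) = 0) :
    ∃ p r, x = vv K p r := by
  have h2 := two_mul_half (K := K)
  rcases h with h | h
  · rcases eq_of_two_mul h with h1 | h1
    · exact ⟨0, 0, by simp only [vv, if_true, io_zero]; linear_combination h1⟩
    · exact ⟨0, 1, by simp only [vv, if_true, io_one]; linear_combination h1⟩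
  · rcases eq_of_two_mul h with h1 | h1
    · exact ⟨1, 0, by simp only [vv, one_ne_zero, if_false, io_zero]; linear_combination h1⟩
    · exact ⟨1, 1, by simp only [vv, one_ne_zero, if_false, io_one]; linear_combination h1 + h2⟩

lemma half_vv (hK : 2 ≤ K) (p r : ZMod 2) : 2 ^ (K - 1) * (vv K p r - 1) = io K p := by
  have h := two_mul_half (K := K)
  have h1 : (2 : ZMod (2 ^ (K + 1))) ^ (K - 1) * 2 = 2 ^ K := by
    rw [← pow_succ]; congr 1; omega
  have h3 : (2 : ZMod (2 ^ (K + 1))) ^ (K - 1) * io K r = 0 := by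
    rcases zmod_two r with rfl | rfl
    · rw [io_zero, mul_zero]
    · rw [io_one, ← pow_add]
      exact pow_zero_of (by omega)
  rcases zmod_two p with rfl | rfl
  · simp only [vv, if_true, io_zero]
    linear_combination h3
  · simp only [vv, one_ne_zero, if_false, io_one]
    linear_combination -h1 - h3 - h

end Val

section Wu

variable {K : ℕ} {G : Type*} [Group G] [TopologicalSpace G]
variable {θ : G → ZMod (2 ^ (K + 1))}

lemma eq_vv (hK : 2 ≤ K) (hV : ∀ g, 2 * (θ g - 1) = 0 ∨ 2 * (θ g + 1) = 0) (g : G) :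
    θ g = vv K (q1 (θ g)) (q2 (θ g)) := by
  obtain ⟨p, r, h⟩ := exists_vv (hV g)
  rw [h, q1_vv hK, q2_vv hK]

lemma hm_q1 (hθ : Ch θ) (hK : 2 ≤ K) (hV : ∀ g, 2 * (θ g - 1) = 0 ∨ 2 * (θ g + 1) = 0) :
    Hm fun g => q1 (θ g) := by
  refine ⟨(continuous_of_discreteTopology (f := q1)).comp hθ.cont, fun g h => ?_⟩
  beta_reduce
  conv_lhs => rw [hθ.mul, eq_vv hK hV g, eq_vv hK hV h, vv_mul (by omega), q1_vv hK]

lemma hm_q2 (hθ : Ch θ) (hK : 2 ≤ K) (hV : ∀ g, 2 * (θ g - 1) = 0 ∨ 2 * (θ g + 1) = 0) :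
    Hm fun g => q2 (θ g) := by
  refine ⟨(continuous_of_discreteTopology (f := q2)).comp hθ.cont, fun g h => ?_⟩
  beta_reduce
  conv_lhs => rw [hθ.mul, eq_vv hK hV g, eq_vv hK hV h, vv_mul (by omega), q2_vv hK]

/-- Wu's formula `a ∪ a = w ∪ a`. -/
lemma wu (hθ : Ch θ) (hv : VG θ) (hK : 2 ≤ K)
    (hV : ∀ g, 2 * (θ g - 1) = 0 ∨ 2 * (θ g + 1) = 0) {a : G → ZMod 2} (ha : Hm a) :
    Bd (fun g h => a g * a h + q1 (θ g) * a h) := by
  obtain ⟨c, hc, h1, h2⟩ := hv.lift hθ ha 1 (by omega)
  let li : ZMod 2 → ZMod (2 ^ (K + 1)) := fun x => if x = 0 then 0 else 1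
  have hli0 : li 0 = 0 := by simp [li]
  have hli1 : li 1 = 1 := by simp [li]
  have hlic : Continuous fun g => li (a g) := (continuous_of_discreteTopology (f := li)).comp ha.1
  have hli : ∀ x, 2 ^ K * li x = io K x := by
    intro x
    rcases zmod_two x with rfl | rfl
    · simp [hli0, io_zero]
    · simp [hli1, io_one]
  have hp : (2 : ZMod (2 ^ (K + 1))) * 2 ^ (K - 1) = 2 ^ K := by
    rw [← pow_succ']; congr 1; omega
  have hy : ∀ g, 2 * (2 ^ (K - 1) * (c g - li (a g))) = 0 := fun g => by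
    have e1 := h2 g
    have e2 := hli (a g)
    linear_combination (c g - li (a g)) * hp + e1 - e2
  refine ⟨fun g => ka (2 ^ (K - 1) * (c g - li (a g))), cont_ka hc hlic _,
    fun g h => io_inj (K := K) ?_⟩
  beta_reduce
  rw [io_add, io_add, io_add, io_ka (hy g), io_ka (hy h), io_ka (hy (g * h))]
  have eA : 2 ^ (K - 1) * (θ g - 1) * li (a h) = io K (q1 (θ g) * a h) := by
    have e1 : 2 ^ (K - 1) * (θ g - 1) = io K (q1 (θ g)) := by
      conv_lhs => rw [eq_vv hK hV g]
      exact half_vv hK _ _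
    rw [e1]
    rcases zmod_two (a h) with e2 | e2
    · rw [e2, hli0, mul_zero, mul_zero, io_zero]
    · rw [e2, hli1, mul_one, mul_one]
  have eB : 2 ^ (K - 1) * (li (a g) + li (a h) - li (a (g * h))) = io K (a g * a h) := by
    rw [ha.2]
    rcases zmod_two (a g) with e1 | e1 <;> rcases zmod_two (a h) with e2 | e2
    · rw [e1, e2]; simp [hli0, io_zero]
    · rw [e1, e2]; simp [hli0, io_zero]
    · rw [e1, e2]; simp [hli0, io_zero]
    · rw [e1, e2, show (1 : ZMod 2) + 1 = 0 by decide, hli0, hli1, mul_one, io_one]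
      linear_combination hp
  have eC : θ g * (2 ^ (K - 1) * (c h - li (a h))) = 2 ^ (K - 1) * (c h - li (a h)) :=
    unit_mul (hθ.inv g) (hy h)
  have e1 := h1 g h
  simp only [df] at e1
  rw [← eA, ← eB]
  linear_combination e1 - eC - hy g - hy h

/-- If the image of `θ` is generated by `-1 + 2^K`, then the square of the sign is zero. -/
lemma cup_self (hθ : Ch θ) (hv : VG θ) (hK : 2 ≤ K)
    (hV : ∀ g, 2 * (θ g - 1) = 0 ∨ 2 * (θ g + 1) = 0) (h12 : ∀ g, q2 (θ g) = q1 (θ g)) :
    Bd (fun g h => q1 (θ g) * q1 (θ h)) := by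
  have hw := hm_q1 hθ hK hV
  have h2K := two_mul_half (K := K)
  let p : ZMod 2 → ZMod (2 ^ (K + 1)) := fun x => if x = 0 then 0 else -1 + 2 ^ (K - 1)
  have hp0 : p 0 = 0 := by simp [p]
  have hp1 : p 1 = -1 + 2 ^ (K - 1) := by simp [p]
  have hpow : (2 : ZMod (2 ^ (K + 1))) * 2 ^ (K - 1) = 2 ^ K := by
    rw [← pow_succ']; congr 1; omega
  have hp : ∀ x, 2 * p x = vv K x x - 1 := by
    intro x
    rcases zmod_two x with rfl | rfl
    · rw [hp0]; simp [vv, io_zero]
    · rw [hp1]
      simp only [vv, one_ne_zero, if_false, io_one]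
      linear_combination hpow + h2K
  have hθv : ∀ g, θ g = vv K (q1 (θ g)) (q1 (θ g)) := fun g => by
    have := eq_vv hK hV g
    rwa [h12 g] at this
  have hpθ : ∀ g, 2 * p (q1 (θ g)) = θ g - 1 := fun g => by
    rw [hp, ← hθv]
  have hpc : Continuous fun g => p (q1 (θ g)) := (continuous_of_discreteTopology (f := p)).comp hw.1
  obtain ⟨c', hc', h1, h2⟩ := hv 0 (by omega) (fun g => p (q1 (θ g))) hpc (fun g h => by
    have e1 := hpθ g
    have e2 := hpθ h
    have e3 := hpθ (g * h)
    have e4 := hθ.mul g h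
    simp only [df]
    rw [pow_zero, one_mul]
    linear_combination e1 + θ g * e2 - e3 - e4)
  have h1' : ∀ g, 2 * (1 * (c' g - p (q1 (θ g)))) = 0 := fun g => by
    have := h1 g
    rwa [pow_zero] at this
  refine ⟨fun g => ka (1 * (c' g - p (q1 (θ g)))), cont_ka hc' hpc 1,
    fun g h => io_inj (K := K) ?_⟩
  beta_reduce
  rw [io_add, io_add, io_ka (h1' g), io_ka (h1' h), io_ka (h1' (g * h))]
  have e1 := h2 g h
  rw [pow_zero, one_mul] at e1
  simp only [df] at e1
  have e2 : θ g * (1 * (c' h - p (q1 (θ h)))) = 1 * (c' h - p (q1 (θ h))) :=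
    unit_mul (hθ.inv g) (h1' h)
  have key : ∀ x y : ZMod 2, p x + vv K x x * p y - p (x + y) = io K (x * y) := by
    intro x y
    have h3 : (2 : ZMod (2 ^ (K + 1))) ^ (K - 1) * 2 ^ K = 0 := by
      rw [← pow_add]; exact pow_zero_of (by omega)
    rcases zmod_two x with rfl | rfl <;> rcases zmod_two y with rfl | rfl
    · simp [hp0, io_zero]
    · simp [hp0, io_zero, vv]
    · simp [hp0, io_zero]
    · rw [show (1 : ZMod 2) + 1 = 0 by decide, hp0, hp1, mul_one, io_one]
      simp only [vv, one_ne_zero, if_false, io_one]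
      linear_combination -h3
  have e3 := key (q1 (θ g)) (q1 (θ h))
  rw [← hθv g, ← hw.2 g h] at e3
  rw [← e3]
  have e4 := h1' g
  have e5 := h1' h
  linear_combination e1 - e2 - e4 - e5

open Classical in
/-- the cup product form -/
noncomputable def bf (a b : G → ZMod 2) : ZMod 2 := if Bd (fun g h => a g * b h) then 0 else 1

lemma bf_eq_zero {a b : G → ZMod 2} : bf a b = 0 ↔ Bd (fun g h => a g * b h) := by
  unfold bf
  split_ifs with h
  · simp [h]
  · simp [h]

lemma bf_congr {a b a' b' : G → ZMod 2}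
    (h : Bd (fun g h => a g * b h) ↔ Bd (fun g h => a' g * b' h)) : bf a b = bf a' b' := by
  unfold bf
  by_cases h1 : Bd (fun g h => a g * b h)
  · rw [if_pos h1, if_pos (h.1 h1)]
  · rw [if_neg h1, if_neg (fun h2 => h1 (h.2 h2))]

variable {n : ℕ}

lemma bf_add (h : PD G n) {a b c : G → ZMod 2} (ha : Hm a) (hb : Hm b) (hc : Hm c) :
    bf (fun g => a g + b g) c = bf a c + bf b c := by
  have e : (fun g k => (a g + b g) * c k) = fun g k => a g * c k + b g * c k := by
    funext g k; ring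
  by_cases h1 : Bd (fun g h => a g * c h)
  · rw [bf_eq_zero.2 h1, zero_add]
    apply bf_congr
    rw [e]
    exact ⟨fun h2 => h2.of_add h1, fun h2 => h1.add h2⟩
  · by_cases h2 : Bd (fun g h => b g * c h)
    · rw [bf_eq_zero.2 h2, add_zero]
      apply bf_congr
      rw [e]
      refine ⟨fun h3 => ?_, fun h3 => h3.add h2⟩
      have h4 : Bd (fun g h => b g * c h + a g * c h) := by
        have e2 : (fun g h => b g * c h + a g * c h) = fun g h => a g * c h + b g * c h := by
          funext g k; ring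
        rw [e2]; exact h3
      exact h4.of_add h2
    · have h3 : bf a c = 1 := by unfold bf; rw [if_neg h1]
      have h4 : bf b c = 1 := by unfold bf; rw [if_neg h2]
      rw [h3, h4, show (1 : ZMod 2) + 1 = 0 by decide, bf_eq_zero, e]
      exact h.one _ _ (Zc.cup ha hc) (Zc.cup hb hc) h1 h2

lemma bf_comm {a b : G → ZMod 2} (ha : Hm a) (hb : Hm b) : bf a b = bf b a :=
  bf_congr ⟨fun h => h.comm ha hb, fun h => h.comm hb ha⟩

variable [IsTopologicalGroup G]

/-- The square of the sign of `θ` is nonzero. -/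
lemma sign_cup (h : PD G 3) (hθ : Ch θ) (hv : VG θ) (hK : 2 ≤ K)
    (hV : ∀ g, 2 * (θ g - 1) = 0 ∨ 2 * (θ g + 1) = 0) :
    ¬ Bd (fun g h => q1 (θ g) * q1 (θ h)) := by
  intro hB
  have hc : Nat.card (H1 2 G) = 8 := by
    have : Nat.card (H1 2 G) = 2 ^ 3 := h.card
    rw [this]; norm_num
  let w : H1 2 G := ⟨fun g => q1 (θ g), hm_q1 hθ hK hV⟩
  refine form hc (fun v => ?_) (fun a b => bf a.1 b.1) (fun a b c => bf_add h a.2 b.2 c.2)
    (fun a b => bf_comm a.2 b.2) (fun a ha => ?_) w (fun a => ?_) ?_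
  · apply Subtype.ext
    funext g
    exact (show ∀ x : ZMod 2, x + x = 0 by decide) _
  · have hne : ∃ g, a.1 g ≠ 0 := by
      by_contra hcon
      push Not at hcon
      exact ha (Subtype.ext (funext hcon))
    obtain ⟨b, hb, hb1⟩ := h.nd a.1 a.2 hne
    exact ⟨⟨b, hb⟩, fun h3 => hb1 (bf_eq_zero.1 h3)⟩
  · apply bf_congr
    have h3 := wu hθ hv hK hV a.2
    have h3' : Bd (fun g h => q1 (θ g) * a.1 h + a.1 g * a.1 h) := by
      have e2 : (fun g h => q1 (θ g) * a.1 h + a.1 g * a.1 h) =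
          fun g h => a.1 g * a.1 h + q1 (θ g) * a.1 h := by
        funext g k; ring
      rw [e2]; exact h3
    exact ⟨fun h4 => h3.of_add h4, fun h4 => h3'.of_add h4⟩
  · exact bf_eq_zero.2 hB

/-- The two quadratic characters are independent. -/
theorem indep (h : PD G 3) (hθ : Ch θ) (hv : VG θ) (hK : 2 ≤ K)
    (hV : ∀ g, 2 * (θ g - 1) = 0 ∨ 2 * (θ g + 1) = 0) (hne : ∃ g, θ g ≠ 1 ∧ θ g ≠ -1)
    (γ δ : ZMod 2) (hrel : ∀ g, γ * q1 (θ g) + δ * q2 (θ g) = 0) : γ = 0 ∧ δ = 0 := by
  have hcup := sign_cup h hθ hv hK hV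
  rcases zmod_two γ with rfl | rfl <;> rcases zmod_two δ with rfl | rfl
  · exact ⟨rfl, rfl⟩
  · exfalso
    obtain ⟨g, h1, h2⟩ := hne
    have h3 := hrel g
    have h4 : q2 (θ g) = 1 := by simp [q2, h1, h2]
    rw [h4] at h3
    simp at h3
  · exfalso
    apply hcup
    have h0 : ∀ g, q1 (θ g) = 0 := fun g => by
      have := hrel g
      linear_combination this
    simp only [h0, zero_mul]
    exact ⟨fun _ => 0, continuous_const, fun g h => by simp⟩
  · exfalso
    apply hcup
    refine cup_self hθ hv hK hV fun g => ?_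
    have h3 := hrel g
    have h4 := (show ∀ x : ZMod 2, x + x = 0 by decide) (q1 (θ g))
    linear_combination h3 - h4

end Wu

end Pool.Agent.H26.DM
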